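import Pool.Agent.H371Z.Tri.Graph

set_option autoImplicit false

namespace Pool.Agent.H371Z.Tri

section Part

variable {P : Type} [DecidableEq P]

def flat (π : List (P × P × P)) : List P := π.flatMap (fun t => [t.1, t.2.1, t.2.2])

def inT (p : P) (t : P × P × P) : Bool := decide (p = t.1) || decide (p = t.2.1) || decide (p = t.2.2)

def same (π : List (P × P × P)) (p q : P) : Bool := π.any (fun t => inT p t && inT q t)

omit [DecidableEq P] in
theorem flat_cons (t : P × P × P) (π : List (P × P × P)) :
    flat (t :: π) = t.1 :: t.2.1 :: t.2.2 :: flat π := by simp [flat]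

omit [DecidableEq P] in
theorem flat_append (π π' : List (P × P × P)) : flat (π ++ π') = flat π ++ flat π' := by
  simp [flat]

omit [DecidableEq P] in
theorem length_flat (π : List (P × P × P)) : (flat π).length = 3 * π.length := by
  induction π with
  | nil => rfl
  | cons t π ih => rw [flat_cons]; simp [ih]; ring

theorem inT_iff {p : P} {t : P × P × P} : inT p t = true ↔ p = t.1 ∨ p = t.2.1 ∨ p = t.2.2 := by
  simp [inT, or_assoc]

theorem mem_flat {π : List (P × P × P)} {p : P} : p ∈ flat π ↔ ∃ t ∈ π, inT p t = true := by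
  simp [flat, inT_iff]

theorem same_iff {π : List (P × P × P)} {p q : P} :
    same π p q = true ↔ ∃ t ∈ π, inT p t = true ∧ inT q t = true := by
  simp [same]

theorem uniq {π : List (P × P × P)} (h : (flat π).Nodup) {t t' : P × P × P} (ht : t ∈ π)
    (ht' : t' ∈ π) {p : P} (h1 : inT p t = true) (h2 : inT p t' = true) : t = t' := by
  induction π with
  | nil => simp at ht
  | cons s π ih =>
    rw [flat_cons] at h
    simp only [List.nodup_cons, List.mem_cons, not_or] at h
    have key : ∀ u ∈ π, inT p s = true → inT p u = true → False := by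
      intro u hu h1 h2
      have : p ∈ flat π := mem_flat.2 ⟨u, hu, h2⟩
      rcases inT_iff.1 h1 with e | e | e
      · exact h.1.2.2 (e ▸ this)
      · exact h.2.1.2 (e ▸ this)
      · exact h.2.2.1 (e ▸ this)
    rcases List.mem_cons.1 ht with e | e
    · rcases List.mem_cons.1 ht' with e' | e'
      · rw [e, e']
      · exact (key t' e' (e ▸ h1) h2).elim
    · rcases List.mem_cons.1 ht' with e' | e'
      · exact (key t e (e' ▸ h2) h1).elim
      · exact ih h.2.2.2 e e'

theorem same_symm {π : List (P × P × P)} {p q : P} (h : same π p q = true) :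
    same π q p = true := by
  obtain ⟨t, ht, h1, h2⟩ := same_iff.1 h
  exact same_iff.2 ⟨t, ht, h2, h1⟩

theorem same_trans {π : List (P × P × P)} (h : (flat π).Nodup) {p q r : P}
    (h1 : same π p q = true) (h2 : same π p r = true) : same π q r = true := by
  obtain ⟨t, ht, a1, a2⟩ := same_iff.1 h1
  obtain ⟨t', ht', b1, b2⟩ := same_iff.1 h2
  have := uniq h ht ht' a1 b1
  subst this
  exact same_iff.2 ⟨t, ht, a2, b2⟩

theorem same_four {π : List (P × P × P)} (h : (flat π).Nodup) {p q r s : P}
    (h1 : same π p q = true) (h2 : same π p r = true) (h3 : same π p s = true)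
    (n1 : p ≠ q) (n2 : p ≠ r) (n3 : p ≠ s) (n4 : q ≠ r) (n5 : q ≠ s) (n6 : r ≠ s) : False := by
  obtain ⟨t, ht, a1, a2⟩ := same_iff.1 h1
  obtain ⟨t', ht', b1, b2⟩ := same_iff.1 h2
  obtain ⟨t'', ht'', c1, c2⟩ := same_iff.1 h3
  have e1 := uniq h ht ht' a1 b1
  have e2 := uniq h ht ht'' a1 c1
  subst e1 e2
  rcases inT_iff.1 a1 with e1 | e1 | e1 <;> rcases inT_iff.1 a2 with e2 | e2 | e2 <;>
    rcases inT_iff.1 b2 with e3 | e3 | e3 <;> rcases inT_iff.1 c2 with e4 | e4 | e4 <;>
    simp_all

def prs (π : List (P × P × P)) : List (P × P) :=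
  π.flatMap (fun t => [(t.1, t.2.1), (t.2.1, t.2.2), (t.1, t.2.2)])

omit [DecidableEq P] in
theorem prs_cons (t : P × P × P) (π : List (P × P × P)) :
    prs (t :: π) = (t.1, t.2.1) :: (t.2.1, t.2.2) :: (t.1, t.2.2) :: prs π := by simp [prs]

omit [DecidableEq P] in
theorem length_prs (π : List (P × P × P)) : (prs π).length = 3 * π.length := by
  induction π with
  | nil => rfl
  | cons t π ih => rw [prs_cons]; simp [ih]; ring

omit [DecidableEq P] in
theorem sum_prs (d : P → P → ℝ) (π : List (P × P × P)) :
    (π.map (fun t => d t.1 t.2.1 + d t.2.1 t.2.2 + d t.1 t.2.2)).sum =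
      ((prs π).map (fun x => d x.1 x.2)).sum := by
  induction π with
  | nil => rfl
  | cons t π ih => rw [prs_cons]; simp only [List.map_cons, List.sum_cons, ih]; ring

theorem mem_prs {π : List (P × P × P)} {x : P × P} (hx : x ∈ prs π) :
    x.1 ∈ flat π ∧ x.2 ∈ flat π ∧ same π x.1 x.2 = true := by
  simp only [prs, List.mem_flatMap, List.mem_cons, List.not_mem_nil, or_false] at hx
  obtain ⟨t, ht, h⟩ := hx
  have h1 : inT x.1 t = true ∧ inT x.2 t = true := by
    rcases h with h | h | h <;> rw [h] <;> simp [inT]
  exact ⟨mem_flat.2 ⟨t, ht, h1.1⟩, mem_flat.2 ⟨t, ht, h1.2⟩, same_iff.2 ⟨t, ht, h1⟩⟩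

omit [DecidableEq P] in
theorem prs_ne {π : List (P × P × P)} (h : (flat π).Nodup) {x : P × P} (hx : x ∈ prs π) :
    x.1 ≠ x.2 := by
  induction π with
  | nil => simp [prs] at hx
  | cons s π ih =>
    rw [flat_cons] at h
    simp only [List.nodup_cons, List.mem_cons, not_or] at h
    rw [prs_cons] at hx
    simp only [List.mem_cons] at hx
    rcases hx with e | e | e | e
    · rw [e]; exact h.1.1
    · rw [e]; exact h.2.1.1
    · rw [e]; exact h.1.2.1
    · exact ih h.2.2.2 e

theorem prs_nodup {π : List (P × P × P)} (h : (flat π).Nodup) :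
    ((prs π).map (fun x => s(x.1, x.2))).Nodup := by
  induction π with
  | nil => simp [prs]
  | cons s π ih =>
    rw [flat_cons] at h
    simp only [List.nodup_cons, List.mem_cons, not_or] at h
    obtain ⟨⟨a1, a2, a3⟩, ⟨a4, a5⟩, a6, a7⟩ := h
    have key : ∀ p q : P, p ∉ flat π → s(p, q) ∉ (prs π).map (fun x => s(x.1, x.2)) := by
      intro p q hp hm
      obtain ⟨x, hx, e⟩ := List.mem_map.1 hm
      have := mem_prs hx
      rcases Sym2.eq_iff.1 e with e | e
      · exact hp (e.1 ▸ this.1)
      · exact hp (e.2 ▸ this.2.1)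
    rw [prs_cons]
    simp only [List.map_cons, List.nodup_cons, List.mem_cons, not_or, Sym2.eq_iff]
    refine ⟨⟨?_, ?_, key _ _ a3⟩, ⟨?_, key _ _ a5⟩, key _ _ a3, ih a7⟩
    · tauto
    · tauto
    · tauto

theorem count_le {π : List (P × P × P)} (h : (flat π).Nodup) (Ed : List (P × P)) :
    (prs π).countP (fun x => decide (∃ e ∈ Ed, s(x.1, x.2) = s(e.1, e.2))) ≤
      Ed.countP (fun e => same π e.1 e.2) := by
  rw [List.countP_eq_length_filter, List.countP_eq_length_filter]
  set L1 := (prs π).filter (fun x => decide (∃ e ∈ Ed, s(x.1, x.2) = s(e.1, e.2)))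
  set L2 := Ed.filter (fun e => same π e.1 e.2)
  have h1 : (L1.map (fun x => s(x.1, x.2))).Nodup :=
    (prs_nodup h).sublist (List.filter_sublist.map _)
  have h2 : L1.map (fun x => s(x.1, x.2)) ⊆ L2.map (fun x => s(x.1, x.2)) := by
    intro y hy
    obtain ⟨x, hx, rfl⟩ := List.mem_map.1 hy
    obtain ⟨hx1, hx2⟩ := List.mem_filter.1 hx
    simp only [decide_eq_true_eq] at hx2
    obtain ⟨e, he, h3⟩ := hx2
    refine List.mem_map.2 ⟨e, List.mem_filter.2 ⟨he, ?_⟩, h3.symm⟩
    have := (mem_prs hx1).2.2
    rcases Sym2.eq_iff.1 h3 with e | e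
    · rw [← e.1, ← e.2]; exact this
    · rw [← e.1, ← e.2]; exact same_symm this
  have := (h1.subperm h2).length_le
  simpa using this

set_option synthInstance.maxSize 4000 in
theorem local_bound {π : List (P × P × P)} (h : (flat π).Nodup) {u v w x y z : P}
    (hn : [u, v, w, x, y, z].Nodup) :
    [(v, u), (w, u), (w, v), (u, x), (u, y), (v, z)].countP (fun e => same π e.1 e.2) ≤
      3 + (if (same π u x && same π u y && same π v z && same π v w) = true then 1 else 0) := by
  simp only [List.nodup_cons, List.mem_cons, List.not_mem_nil, or_false, not_or,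
    not_false_eq_true, List.nodup_nil, and_true] at hn
  obtain ⟨⟨n1, n2, n3, n4, n5⟩, ⟨n6, n7, n8, n9⟩, ⟨n10, n11, n12⟩, ⟨n13, n14⟩, n15⟩ := hn
  have s1 : same π v u = true → same π u v = true := same_symm
  have s2 : same π w u = true → same π u w = true := same_symm
  have s3 : same π w v = true → same π v w = true := same_symm
  have t1 : same π w u = true → same π w v = true → same π v u = true :=
    fun a b => same_trans h b a
  have t2 : same π v u = true → same π v z = true → same π u z = true :=
    fun a b => same_trans h a b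
  have t3 : same π v u = true → same π w v = true → same π w u = true :=
    fun a b => same_trans h (same_symm b) a
  have f1 : same π u v = true → same π u w = true → same π u x = true → False :=
    fun a b c => same_four h a b c n1 n2 n3 n6 n7 n10
  have f2 : same π u v = true → same π u w = true → same π u y = true → False :=
    fun a b c => same_four h a b c n1 n2 n4 n6 n8 n11
  have f3 : same π u v = true → same π u w = true → same π u z = true → False :=
    fun a b c => same_four h a b c n1 n2 n5 n6 n9 n12
  have f4 : same π u v = true → same π u x = true → same π u y = true → False :=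
    fun a b c => same_four h a b c n1 n3 n4 n7 n8 n13
  have f5 : same π u w = true → same π u x = true → same π u y = true → False :=
    fun a b c => same_four h a b c n2 n3 n4 n10 n11 n13
  simp only [List.countP_cons, List.countP_nil]
  generalize same π v u = b1 at *
  generalize same π w u = b2 at *
  generalize same π w v = b3 at *
  generalize same π u x = b4 at *
  generalize same π u y = b5 at *
  generalize same π v z = b6 at *
  generalize same π u v = b7 at *
  generalize same π u w = b8 at *
  generalize same π v w = b9 at *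
  generalize same π u z = b10 at *
  revert s1 s2 s3 t1 t2 t3 f1 f2 f3 f4 f5
  revert b1 b2 b3 b4 b5 b6 b7 b8 b9 b10
  decide

omit [DecidableEq P] in
theorem exists_flat : ∀ (k : ℕ) (l : List P), l.length = 3 * k → ∃ π, flat π = l
  | 0, l, h => ⟨[], by simpa [flat, eq_comm] using h⟩
  | k + 1, a :: b :: c :: l, h => by
    obtain ⟨π, hπ⟩ := exists_flat k l (by simp at h; omega)
    exact ⟨(a, b, c) :: π, by rw [flat_cons, hπ]⟩
  | k + 1, [], h => by simp at h
  | k + 1, [_], h => by simp at h; omega
  | k + 1, [_, _], h => by simp at h; omega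

end Part

end Pool.Agent.H371Z.Tri
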