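import Pool.Agent.NPC.Defs

set_option autoImplicit false

/-!
Maximisation problems, approximation-preserving reductions, bounded three-dimensional matching and
the maximum-perimeter triangle partition problem.
-/

namespace Pool.Agent.H371Z.Tri

open Pool.Agent.NPC Turing
open scoped ENNReal

/-- A function between encodable types is computed in polynomial time by a Turing machine
(in the sense of Mathlib) working on the binary codes. -/
def PolyFun {α β : Type} [TEnc α] [TEnc β] (f : α → β) : Prop :=
  Nonempty (TM2ComputableInPolyTime (bits : α → List Bool) (bits : β → List Bool) f)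

/-- A maximisation problem: instances, feasible solutions and the objective. -/
structure MaxProblem (I S : Type) where
  /-- the valid instances -/
  inst : I → Prop
  /-- the feasible solutions of an instance -/
  sol : I → S → Prop
  /-- the value of a solution -/
  val : I → S → ℝ

/-- The solution `y` has performance ratio at most `r`: no feasible solution is worth more than
`r` times the value of `y`. -/
def MaxProblem.Approx {I S : Type} (P : MaxProblem I S) (r : ℝ) (x : I) (y : S) : Prop :=
  ∀ z, P.sol x z → P.val x z ≤ r * P.val x y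

/-- An AP-reduction whose two maps do not depend on the ratio `r`. -/
def APReduces {I S J T : Type} [TEnc I] [TEnc S] [TEnc J] [TEnc T]
    (P : MaxProblem I S) (Q : MaxProblem J T) : Prop :=
  ∃ (f : I → J) (g : I × T → S) (α : ℝ), PolyFun f ∧ PolyFun g ∧ 1 ≤ α ∧
    ∀ x, P.inst x → Q.inst (f x) ∧ (∃ z, Q.sol (f x) z) ∧
      ∀ z, Q.sol (f x) z → P.sol x (g (x, z)) ∧
        ∀ r : ℝ, 1 < r → Q.Approx r (f x) z → P.Approx (1 + α * (r - 1)) x (g (x, z))

/-- Two triples differ in every coordinate. -/
def Disj (s t : ℕ × ℕ × ℕ) : Prop := s.1 ≠ t.1 ∧ s.2.1 ≠ t.2.1 ∧ s.2.2 ≠ t.2.2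

/-- Maximum three-dimensional matching where every element occurs in at most `B` triples. -/
def max3DM (B : ℕ) : MaxProblem (List (ℕ × ℕ × ℕ)) (List (ℕ × ℕ × ℕ)) where
  inst T := T ≠ [] ∧ T.Nodup ∧ ∀ a : ℕ, T.countP (fun t => t.1 = a) ≤ B ∧
    T.countP (fun t => t.2.1 = a) ≤ B ∧ T.countP (fun t => t.2.2 = a) ≤ B
  sol T M := (∀ t ∈ M, t ∈ T) ∧ M.Pairwise Disj
  val _ M := M.length

/-- The `L_p` distance in `ℝ^s` of two points given by lists of rational coordinates. -/
noncomputable def dp (p : ℝ≥0∞) (s : ℕ) (x y : List ℚ) : ℝ :=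
  dist (WithLp.toLp p (fun i : Fin s => ((x.getD i 0 : ℚ) : ℝ)))
    (WithLp.toLp p (fun i : Fin s => ((y.getD i 0 : ℚ) : ℝ)))

/-- Maximum-perimeter partition of `3 n` points of `ℚ^s` into triangles, under the `L_p` norm,
the dimension `s` being part of the instance. -/
noncomputable def maxTri (p : ℝ≥0∞) :
    MaxProblem (ℕ × List (List ℚ)) (List (List ℚ × List ℚ × List ℚ)) where
  inst x := 0 < x.1 ∧ (∀ a ∈ x.2, a.length = x.1) ∧ x.2.Nodup ∧ ∃ n, 0 < n ∧ x.2.length = 3 * n
  sol x π := (π.flatMap (fun t => [t.1, t.2.1, t.2.2])).Perm x.2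
  val x π := (π.map (fun t => dp p x.1 t.1 t.2.1 + dp p x.1 t.2.1 t.2.2 + dp p x.1 t.1 t.2.2)).sum

end Pool.Agent.H371Z.Tri
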