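import Pool.Agent.H371Z.Tri.Lower
import Pool.Agent.NPC.Num

set_option autoImplicit false

namespace Pool.Agent.H371Z.Tri

open scoped ENNReal
open Pool.Agent.NPC

theorem zip_flatMap {α β γ : Type} (f : α → List β) (g : α → List γ) (l : List α)
    (h : ∀ a ∈ l, (f a).length = (g a).length) :
    (l.flatMap f).zip (l.flatMap g) = l.flatMap (fun a => (f a).zip (g a)) := by
  induction l with
  | nil => rfl
  | cons a l ih =>
    rw [List.flatMap_cons, List.flatMap_cons, List.flatMap_cons,
      List.zip_append (h a (by simp)), ih (fun b hb => h b (by simp [hb]))]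

theorem sum_fin_zip (φ : ℚ → ℚ → ℝ) : ∀ (s : ℕ) (x y : List ℚ), x.length = s → y.length = s →
    ∑ i : Fin s, φ (x.getD i 0) (y.getD i 0) = ((x.zip y).map (fun q => φ q.1 q.2)).sum
  | 0, [], [], _, _ => by simp
  | s + 1, a :: x, b :: y, h1, h2 => by
    rw [Fin.sum_univ_succ]
    have := sum_fin_zip φ s x y (by simpa using h1) (by simpa using h2)
    simp only [List.zip_cons_cons, List.map_cons, List.sum_cons, ← this]
    simp

theorem mem_zip_iff {s : ℕ} {x y : List ℚ} (h1 : x.length = s) (h2 : y.length = s) (q : ℚ × ℚ) :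
    q ∈ x.zip y ↔ ∃ i : Fin s, q = (x.getD i 0, y.getD i 0) := by
  rw [List.mem_iff_getElem]
  constructor
  · rintro ⟨i, hi, rfl⟩
    have hi' : i < s := by simp [h1, h2] at hi; exact hi
    refine ⟨⟨i, hi'⟩, ?_⟩
    simp [List.getD_eq_getElem?_getD, h1, h2, hi']
  · rintro ⟨i, rfl⟩
    refine ⟨i, by simp [h1, h2], ?_⟩
    simp [List.getD_eq_getElem?_getD, h1, h2]

theorem dp_top {s : ℕ} {x y : List ℚ} (h1 : x.length = s) (h2 : y.length = s) {D : ℚ}
    (hle : ∀ q ∈ x.zip y, |q.1 - q.2| ≤ D) (hex : ∃ q ∈ x.zip y, |q.1 - q.2| = D) :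
    dp ⊤ s x y = D := by
  unfold dp
  rw [PiLp.dist_eq_iSup]
  obtain ⟨q, hq, e⟩ := hex
  obtain ⟨i0, rfl⟩ := (mem_zip_iff h1 h2 q).1 hq
  have : Nonempty (Fin s) := ⟨i0⟩
  have hb : ∀ i : Fin s, dist ((x.getD i 0 : ℚ) : ℝ) ((y.getD i 0 : ℚ) : ℝ) ≤ D := by
    intro i
    have := hle _ ((mem_zip_iff h1 h2 _).2 ⟨i, rfl⟩)
    rw [Real.dist_eq]
    exact_mod_cast this
  apply le_antisymm
  · exact ciSup_le hb
  · refine le_ciSup_of_le ⟨D, ?_⟩ i0 ?_
    · rintro _ ⟨i, rfl⟩
      exact hb i
    · simp only at e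
      change (D : ℝ) ≤ dist ((x.getD i0 0 : ℚ) : ℝ) ((y.getD i0 0 : ℚ) : ℝ)
      rw [Real.dist_eq, ← e]
      push_cast
      exact le_rfl

def toQ (b : Bool) : ℚ := if b = true then 1 else 0

def ham (x y : List Bool) : ℕ := (x.zip y).countP (fun q => q.1 ^^ q.2)

theorem dp_fin {p : ℝ≥0∞} (hp : 0 < p.toReal) {s : ℕ} {x y : List Bool} (h1 : x.length = s)
    (h2 : y.length = s) : dp p s (x.map toQ) (y.map toQ) = (ham x y : ℝ) ^ (1 / p.toReal) := by
  unfold dp
  rw [PiLp.dist_eq_sum hp]
  congr 1
  have := sum_fin_zip (fun a b => dist (a : ℝ) (b : ℝ) ^ p.toReal) s (x.map toQ) (y.map toQ)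
    (by simpa using h1) (by simpa using h2)
  refine this.trans ?_
  rw [List.zip_map, List.map_map, ham]
  generalize x.zip y = l
  induction l with
  | nil => simp
  | cons q l ih =>
    rw [List.map_cons, List.sum_cons, ih, List.countP_cons]
    obtain ⟨a, b⟩ := q
    cases a <;> cases b <;> simp [toQ, hp.ne', Real.dist_eq, add_comm]

theorem ham_append {x x' y y' : List Bool} (h : x.length = y.length) :
    ham (x ++ x') (y ++ y') = ham x y + ham x' y' := by
  unfold ham
  rw [List.zip_append h, List.countP_append]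

theorem ham_flatMap {α : Type} (f g : α → List Bool) (l : List α)
    (h : ∀ a ∈ l, (f a).length = (g a).length) :
    ham (l.flatMap f) (l.flatMap g) = (l.map (fun a => ham (f a) (g a))).sum := by
  induction l with
  | nil => rfl
  | cons a l ih =>
    rw [List.flatMap_cons, List.flatMap_cons, ham_append (h a (by simp)),
      ih (fun b hb => h b (by simp [hb]))]
    rfl

theorem ham_cons (a b : Bool) (x y : List Bool) :
    ham (a :: x) (b :: y) = ham x y + if (a ^^ b) = true then 1 else 0 := by
  unfold ham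
  rw [List.zip_cons_cons, List.countP_cons]

theorem ham_xor_same (s : Bool) : ∀ (x y : List Bool),
    ham (x.map (fun b => b ^^ s)) (y.map (fun b => b ^^ s)) = ham x y
  | [], _ => by simp [ham]
  | _ :: _, [] => by simp [ham]
  | a :: x, b :: y => by
    rw [List.map_cons, List.map_cons, ham_cons, ham_cons, ham_xor_same s x y]
    cases a <;> cases b <;> cases s <;> rfl

theorem ham_xor_ne (s : Bool) : ∀ (x y : List Bool), x.length = y.length →
    ham (x.map (fun b => b ^^ s)) (y.map (fun b => b ^^ !s)) + ham x y = x.length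
  | [], _, _ => by simp [ham]
  | _ :: _, [], h => by simp at h
  | a :: x, b :: y, h => by
    have := ham_xor_ne s x y (by simpa using h)
    rw [List.map_cons, List.map_cons, ham_cons, ham_cons, List.length_cons, ← this]
    cases a <;> cases b <;> cases s <;> simp <;> omega

theorem ham_self : ∀ x : List Bool, ham x x = 0
  | [] => rfl
  | a :: x => by rw [ham_cons, ham_self x]; simp

def hstep (b : Bool) (r : List Bool) : List Bool := r ++ r.map (fun c => c ^^ b)

def had (bs : List Bool) : List Bool := bs.foldr hstep [false]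

theorem had_length : ∀ bs : List Bool, (had bs).length = 2 ^ bs.length
  | [] => rfl
  | b :: bs => by
    have := had_length bs
    change (hstep b (had bs)).length = _
    simp [hstep, this, pow_succ]
    omega

theorem had_ham : ∀ bs bs' : List Bool, bs.length = bs'.length → bs ≠ bs' →
    2 * ham (had bs) (had bs') = 2 ^ bs.length
  | [], [], _, h => absurd rfl h
  | [], _ :: _, h, _ => by simp at h
  | _ :: _, [], h, _ => by simp at h
  | b :: bs, b' :: bs', h, hne => by
    have hl : bs.length = bs'.length := by simpa using h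
    have hl2 : (had bs).length = (had bs').length := by rw [had_length, had_length, hl]
    change 2 * ham (hstep b (had bs)) (hstep b' (had bs')) = _
    unfold hstep
    rw [ham_append hl2, List.length_cons, pow_succ]
    by_cases e : b = b'
    · subst e
      have := had_ham bs bs' hl (fun e => hne (by rw [e]))
      rw [ham_xor_same]
      omega
    · have e2 : b' = !b := by cases b <;> cases b' <;> simp_all
      have := ham_xor_ne b (had bs) (had bs') hl2
      rw [had_length] at this
      rw [e2]
      omega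

def pad (N n : ℕ) : List Bool := (List.range N.bits.length).map (fun j => n.bits.getD j false)

theorem pad_length (N n : ℕ) : (pad N n).length = N.size := by
  simp [pad, Nat.size_eq_bits_len]

theorem pad_inj {N n n' : ℕ} (h : n ≤ N) (h' : n' ≤ N) (e : pad N n = pad N n') : n = n' := by
  apply Nat.eq_of_testBit_eq
  intro j
  rw [Nat.testBit_eq_inth, Nat.testBit_eq_inth]
  change n.bits.getD j false = n'.bits.getD j false
  by_cases hj : j < N.bits.length
  · unfold pad at e
    exact List.map_inj_left.1 e j (by simpa using hj)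
  · have a1 : n.bits.length ≤ N.bits.length := by
      rw [Nat.size_eq_bits_len, Nat.size_eq_bits_len]; exact Nat.size_le_size h
    have a2 : n'.bits.length ≤ N.bits.length := by
      rw [Nat.size_eq_bits_len, Nat.size_eq_bits_len]; exact Nat.size_le_size h'
    rw [List.getD_eq_default _ _ (by omega), List.getD_eq_default _ _ (by omega)]

def idx (a : Vx) : ℕ := 6 * a.1 + a.2

theorem idx_lt {T : List Tr} {a : Vx} (ha : a ∈ Vs T) : idx a < 6 * T.length := by
  rw [mem_Vs] at ha
  unfold idx
  omega

theorem idx_inj {T : List Tr} {a b : Vx} (ha : a ∈ Vs T) (hb : b ∈ Vs T) (h : idx a = idx b) :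
    a = b := by
  rw [mem_Vs] at ha hb
  unfold idx at h
  exact Prod.ext (by omega) (by omega)

def rowH (N n : ℕ) (s : Bool) : List Bool := (had (pad N n)).map (fun b => b ^^ s)

theorem rowH_length (N n : ℕ) (s : Bool) : (rowH N n s).length = 2 ^ N.size := by
  simp [rowH, had_length, pad_length]

def codeH (B : ℕ) (T : List Tr) (a : Vx) : List Bool :=
  (Ks B).flatMap (fun κ => rowH (6 * T.length) (idx (tgt B T κ a)) (decide (tgt B T κ a = a)))

def ptF (B : ℕ) (T : List Tr) (a : Vx) : List ℚ := (codeH B T a).map toQ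

theorem length_flatMap_const {α β : Type} (f : α → List β) (n : ℕ) (l : List α)
    (h : ∀ a ∈ l, (f a).length = n) : (l.flatMap f).length = l.length * n := by
  induction l with
  | nil => simp
  | cons a l ih =>
    rw [List.flatMap_cons, List.length_append, h a (by simp), ih (fun b hb => h b (by simp [hb])),
      List.length_cons]
    ring

theorem codeH_length (B : ℕ) (T : List Tr) (a : Vx) :
    (codeH B T a).length = 3 * (B + 1) * 2 ^ (6 * T.length).size := by
  unfold codeH
  rw [length_flatMap_const _ _ _ (fun _ _ => rowH_length _ _ _), length_Ks]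

theorem sum_two_ite {α : Type} (f : α → ℕ) (q : α → Bool) (H : ℕ) (l : List α)
    (h : ∀ a ∈ l, 2 * f a = H + if q a = true then H else 0) :
    2 * (l.map f).sum = (l.length + l.countP q) * H := by
  induction l with
  | nil => simp
  | cons a l ih =>
    have h1 := ih (fun b hb => h b (by simp [hb]))
    have h2 := h a (by simp)
    rw [List.map_cons, List.sum_cons, List.length_cons, List.countP_cons, mul_add, h1, h2]
    split_ifs <;> ring

open Classical in
theorem ham_codeH {B : ℕ} {T : List Tr} (hB : Bd B T) {a b : Vx} (ha : a ∈ Vs T) (hb : b ∈ Vs T)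
    (hab : a ≠ b) : 2 * ham (codeH B T a) (codeH B T b) =
      (3 * (B + 1) + if Adj T a b then 1 else 0) * 2 ^ (6 * T.length).size := by
  unfold codeH
  rw [ham_flatMap _ _ _ (fun _ _ => by rw [rowH_length, rowH_length]),
    sum_two_ite _ (fun κ => decide (tgt B T κ a = tgt B T κ b)) (2 ^ (6 * T.length).size),
    length_Ks, countP_tgt hB (mem_Vs.1 ha).1 (mem_Vs.1 hb).1 hab]
  intro κ hκ
  by_cases e : tgt B T κ a = tgt B T κ b
  · have h1 := side_ne (mem_Vs.1 ha).1 (mem_Vs.1 hb).1 hab e
    have h2 : decide (tgt B T κ b = b) = !decide (tgt B T κ a = a) := by rw [h1]; simp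
    have h3 := ham_xor_ne (decide (tgt B T κ a = a)) (had (pad (6 * T.length) (idx (tgt B T κ a))))
      (had (pad (6 * T.length) (idx (tgt B T κ a)))) rfl
    rw [ham_self, had_length, pad_length] at h3
    unfold rowH
    rw [h2, ← e]
    simp only [decide_true, if_true]
    omega
  · have m1 := tgt_mem (B := B) hκ ha
    have m2 := tgt_mem (B := B) hκ hb
    have hne : pad (6 * T.length) (idx (tgt B T κ a)) ≠ pad (6 * T.length) (idx (tgt B T κ b)) :=
      fun h => e (idx_inj m1 m2 (pad_inj (idx_lt m1).le (idx_lt m2).le h))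
    have h1 := had_ham _ _ (by rw [pad_length, pad_length]) hne
    rw [pad_length] at h1
    unfold rowH
    simp only [e, decide_false, Bool.false_eq_true, if_false, add_zero]
    by_cases e2 : decide (tgt B T κ b = b) = decide (tgt B T κ a = a)
    · rw [e2, ham_xor_same, h1]
    · have e3 : decide (tgt B T κ b = b) = !decide (tgt B T κ a = a) := by
        revert e2
        cases decide (tgt B T κ b = b) <;> cases decide (tgt B T κ a = a) <;> simp
      have h3 := ham_xor_ne (decide (tgt B T κ a = a))
        (had (pad (6 * T.length) (idx (tgt B T κ a))))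
        (had (pad (6 * T.length) (idx (tgt B T κ b))))
        (by rw [had_length, had_length, pad_length, pad_length])
      rw [had_length, pad_length] at h3
      rw [e3]
      omega

/-- the ratio of the two distances -/
noncomputable def theta (p : ℝ≥0∞) (B : ℕ) : ℝ :=
  (((3 * (B + 1) + 1 : ℕ) : ℝ) / ((3 * (B + 1) : ℕ) : ℝ)) ^ (1 / p.toReal)

theorem one_lt_theta {p : ℝ≥0∞} (hp : 0 < p.toReal) (B : ℕ) : 1 < theta p B := by
  unfold theta
  apply Real.one_lt_rpow
  · rw [one_lt_div (by positivity)]
    exact_mod_cast Nat.lt_succ_self _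
  · positivity

noncomputable def baseD (p : ℝ≥0∞) (B : ℕ) (T : List Tr) : ℝ :=
  (((3 * (B + 1) : ℕ) : ℝ) * (2 ^ (6 * T.length).size / 2)) ^ (1 / p.toReal)

theorem baseD_pos (p : ℝ≥0∞) (B : ℕ) (T : List Tr) : 0 < baseD p B T := by
  unfold baseD
  positivity

open Classical in
theorem dp_ptF {p : ℝ≥0∞} (hp : 0 < p.toReal) {B : ℕ} {T : List Tr} (hB : Bd B T) {a b : Vx}
    (ha : a ∈ Vs T) (hb : b ∈ Vs T) (hab : a ≠ b) :
    dp p (3 * (B + 1) * 2 ^ (6 * T.length).size) (ptF B T a) (ptF B T b) =
      if Adj T a b then baseD p B T + (theta p B - 1) * baseD p B T else baseD p B T := by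
  unfold ptF
  rw [dp_fin hp (codeH_length B T a) (codeH_length B T b)]
  have h := ham_codeH hB ha hb hab
  split_ifs at h ⊢ with hA
  · have e : (ham (codeH B T a) (codeH B T b) : ℝ) =
        (((3 * (B + 1) + 1 : ℕ) : ℝ) / ((3 * (B + 1) : ℕ) : ℝ)) *
          (((3 * (B + 1) : ℕ) : ℝ) * (2 ^ (6 * T.length).size / 2)) := by
      have h2 : (2 : ℝ) * (ham (codeH B T a) (codeH B T b) : ℝ) =
          ((3 * (B + 1) + 1 : ℕ) : ℝ) * 2 ^ (6 * T.length).size := by exact_mod_cast h
      field_simp
      linarith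
    rw [e, Real.mul_rpow (by positivity) (by positivity)]
    unfold theta baseD
    ring
  · have e : (ham (codeH B T a) (codeH B T b) : ℝ) =
          (((3 * (B + 1) : ℕ) : ℝ) * (2 ^ (6 * T.length).size / 2)) := by
      have h2 : (2 : ℝ) * (ham (codeH B T a) (codeH B T b) : ℝ) =
          ((3 * (B + 1) : ℕ) : ℝ) * 2 ^ (6 * T.length).size := by exact_mod_cast h
      linarith
    rw [e]
    rfl

def cI (n : ℕ) (s : Bool) (j : ℕ) : ℚ := if j = n then (if s = true then 1 else -1) else 0

def ptI (B : ℕ) (T : List Tr) (a : Vx) : List ℚ :=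
  (Ks B).flatMap (fun κ => (List.range (6 * T.length)).map
    (fun j => cI (idx (tgt B T κ a)) (decide (tgt B T κ a = a)) j))

theorem ptI_length (B : ℕ) (T : List Tr) (a : Vx) :
    (ptI B T a).length = 3 * (B + 1) * (6 * T.length) := by
  unfold ptI
  rw [length_flatMap_const _ (6 * T.length) _ (fun _ _ => by simp), length_Ks]

open Classical in
theorem dp_ptI {B : ℕ} {T : List Tr} (hB : Bd B T) {a b : Vx}
    (ha : a ∈ Vs T) (hb : b ∈ Vs T) (hab : a ≠ b) :
    dp ⊤ (3 * (B + 1) * (6 * T.length)) (ptI B T a) (ptI B T b) =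
      if Adj T a b then (1 : ℝ) + 1 else 1 := by
  have hz : ∀ q, q ∈ (ptI B T a).zip (ptI B T b) ↔ ∃ κ ∈ Ks B, ∃ j < 6 * T.length,
      q = (cI (idx (tgt B T κ a)) (decide (tgt B T κ a = a)) j,
        cI (idx (tgt B T κ b)) (decide (tgt B T κ b = b)) j) := by
    intro q
    unfold ptI
    rw [zip_flatMap _ _ _ (fun _ _ => by simp)]
    simp only [List.zip_map', List.mem_flatMap, List.mem_map, List.mem_range, eq_comm]
  have hc := countP_tgt hB (mem_Vs.1 ha).1 (mem_Vs.1 hb).1 hab
  split_ifs at hc ⊢ with hA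
  · have := dp_top (D := 2) (ptI_length B T a) (ptI_length B T b) (by
      intro q hq
      obtain ⟨κ, _, j, _, rfl⟩ := (hz q).1 hq
      unfold cI
      split_ifs <;> norm_num) (by
      have h1 : 0 < (Ks B).countP (fun κ => decide (tgt B T κ a = tgt B T κ b)) := by omega
      obtain ⟨κ, hκ, e⟩ := List.countP_pos_iff.1 h1
      simp only [decide_eq_true_eq] at e
      refine ⟨_, (hz _).2 ⟨κ, hκ, idx (tgt B T κ a), idx_lt (tgt_mem hκ ha), rfl⟩, ?_⟩
      have h2 := side_ne (mem_Vs.1 ha).1 (mem_Vs.1 hb).1 hab e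
      rw [h2, ← e]
      unfold cI
      cases decide (tgt B T κ a = b) <;> norm_num)
    rw [this]
    norm_num
  · have hne : ∀ κ ∈ Ks B, idx (tgt B T κ a) ≠ idx (tgt B T κ b) := by
      intro κ hκ e
      have := List.countP_eq_zero.1 hc κ hκ
      simp only [decide_eq_true_eq] at this
      exact this (idx_inj (tgt_mem hκ ha) (tgt_mem hκ hb) e)
    have := dp_top (D := 1) (ptI_length B T a) (ptI_length B T b) (by
      intro q hq
      obtain ⟨κ, hκ, j, _, rfl⟩ := (hz q).1 hq
      have := hne κ hκ
      unfold cI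
      split_ifs <;> first | omega | norm_num) (by
      have hκ : ((0, 0) : ℕ × ℕ) ∈ Ks B := mem_Ks.2 ⟨by simp, by simp⟩
      refine ⟨_, (hz _).2 ⟨_, hκ, idx (tgt B T (0, 0) a), idx_lt (tgt_mem hκ ha), rfl⟩, ?_⟩
      have := hne _ hκ
      unfold cI
      simp only [if_true, this, if_false]
      split_ifs <;> norm_num)
    rw [this]
    norm_num

end Pool.Agent.H371Z.Tri
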