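import Pool.Agent.H371Z.Tri.PolyT

set_option autoImplicit false

namespace Pool.Agent.H371Z.Tri

open Pool.Agent.NPC
open scoped ENNReal

theorem dp_self (p : ℝ≥0∞) (hp : 1 ≤ p) (s : ℕ) (x : List ℚ) : dp p s x x = 0 := by
  have : Fact (1 ≤ p) := ⟨hp⟩
  unfold dp
  exact dist_self _

open Classical in
theorem ap_of_emb (p : ℝ≥0∞) (hp : 1 ≤ p) (B : ℕ) (pt : List Tr → Vx → Pt)
    (hpt : Poly (fun x : List Tr × Vx => pt x.1 x.2)) (dim : List Tr → ℕ)
    (hdim : ∀ T a, (pt T a).length = dim T) (hpos : ∀ T, T ≠ [] → 0 < dim T) (ρ : ℝ) (hρ : 0 ≤ ρ)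
    (hd : ∀ T, Bd B T → ∃ D Δ : ℝ, 0 < Δ ∧ 0 < D ∧ D ≤ ρ * Δ ∧ ∀ a ∈ Vs T, ∀ b ∈ Vs T, a ≠ b →
      dp p (dim T) (pt T a) (pt T b) = if Adj T a b then D + Δ else D) :
    APReduces (max3DM B) (maxTri p) := by
  refine ⟨fun T => ((pt T (0, 0)).length, (Vs T).map (pt T)), fun x => dec x.1 (pt x.1) x.2,
    18 * B * ρ + 9 * B + 1, polyFun_of_poly ?_, polyFun_of_poly (poly_dec hpt), ?_, ?_⟩
  · refine Poly.pair (Poly.length (hpt.comp (Poly.pair NPC.Poly.id (NPC.Poly.const (0, 0))))) ?_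
    exact NPC.Poly.map (by fun_prop) hpt
  · have : 0 ≤ 18 * (B : ℝ) * ρ + 9 * B := by positivity
    linarith
  intro T hT
  obtain ⟨D, Δ, hΔ, hD, hDρ, h⟩ := hd T (bd_of_inst hT)
  have hinj : ∀ a ∈ Vs T, ∀ b ∈ Vs T, pt T a = pt T b → a = b := by
    intro a ha b hb e
    by_contra hab
    have h1 := h a ha b hb hab
    rw [e, dp_self p hp] at h1
    split_ifs at h1 <;> linarith
  have hlen : 0 < T.length := List.length_pos_iff.2 hT.1
  simp only [hdim]
  refine ⟨⟨hpos T hT.1, ?_, (nodup_Vs T).map_on hinj, 2 * T.length, by omega, ?_⟩, ?_, ?_⟩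
  · intro a ha
    obtain ⟨v, _, rfl⟩ := List.mem_map.1 ha
    exact hdim T v
  · simp only [List.length_map, length_Vs]; omega
  · obtain ⟨π, hπ, _⟩ := lower (M := []) hT.2.1 (by simp) List.Pairwise.nil hΔ.le h
    exact ⟨π, hπ⟩
  · intro π hπ
    obtain ⟨h1, h2⟩ := comb_main hT hΔ hD.le hDρ hinj h (π := π) hπ
    exact ⟨h1, fun r hr happ => h2 r hr happ⟩

theorem main (p : ℝ≥0∞) (hp : 1 ≤ p) (B : ℕ) : APReduces (max3DM B) (maxTri p) := by
  by_cases ht : p = ⊤
  · subst ht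
    refine ap_of_emb ⊤ hp B (ptI B) (poly_ptI B (by fun_prop) (by fun_prop))
      (fun T => 3 * (B + 1) * (6 * T.length)) (ptI_length B) ?_ 1 zero_le_one ?_
    · intro T hT
      have : 0 < T.length := List.length_pos_iff.2 hT
      positivity
    · intro T hB
      exact ⟨1, 1, one_pos, one_pos, by norm_num, fun a ha b hb hab => dp_ptI hB ha hb hab⟩
  · have hp0 : 0 < p.toReal := ENNReal.toReal_pos (by rintro rfl; simp at hp) ht
    have hθ := one_lt_theta hp0 B
    refine ap_of_emb p hp B (ptF B) (poly_ptF B (by fun_prop) (by fun_prop))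
      (fun T => 3 * (B + 1) * 2 ^ (6 * T.length).size) ?_ ?_ (1 / (theta p B - 1))
      (by have : 0 < theta p B - 1 := by linarith
          positivity) ?_
    · intro T a
      simp [ptF, codeH_length]
    · intro T _
      positivity
    · intro T hB
      have hD := baseD_pos p B T
      have h1 : 0 < theta p B - 1 := by linarith
      refine ⟨baseD p B T, (theta p B - 1) * baseD p B T, by positivity, hD, ?_,
        fun a ha b hb hab => dp_ptF hp0 hB ha hb hab⟩
      apply le_of_eq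
      field_simp

end Pool.Agent.H371Z.Tri
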