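import Pool.Agent.H371Z.Tri.Defs

set_option autoImplicit false

namespace Pool.Agent.H371Z.Tri

abbrev Tr : Type := ℕ × ℕ × ℕ

def co (i : ℕ) (t : Tr) : ℕ := if i = 0 then t.1 else if i = 1 then t.2.1 else t.2.2

def key (T : List Tr) (c i : ℕ) : ℕ := co i (T.getD c (0, 0, 0))

def first (T : List Tr) (c i : ℕ) : ℕ :=
  ((List.range T.length).filter (fun c' => decide (key T c' i = key T c i))).getD 0 0

def rank (T : List Tr) (c i : ℕ) : ℕ :=
  ((List.range T.length).filter (fun c' => decide (c' < c ∧ key T c' i = key T c i))).length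

def dd (i : ℕ) : ℕ := if i = 2 then 1 else 0

def ss (i : ℕ) : ℕ := if i = 0 then 1 else 2

def tgt (B : ℕ) (T : List Tr) (κ a : ℕ × ℕ) : ℕ × ℕ :=
  if κ.2 = B then (if a.2 = ss κ.1 then (a.1, dd κ.1) else a)
  else if a.2 = dd κ.1 ∧ rank T a.1 κ.1 = κ.2 then (first T a.1 κ.1, 3 + κ.1) else a

def Ks (B : ℕ) : List (ℕ × ℕ) := (List.range 3).flatMap (fun i => (List.range (B + 1)).map (fun r => (i, r)))

def Vs (T : List Tr) : List (ℕ × ℕ) :=
  (List.range T.length).flatMap (fun c => [(c, 0), (c, 1), (c, 2), (c, 3), (c, 4), (c, 5)])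

def esrc (c i : ℕ) (s : Bool) : ℕ × ℕ := if s then (c, ss i) else (c, dd i)

def edst (T : List Tr) (c i : ℕ) (s : Bool) : ℕ × ℕ := if s then (c, dd i) else (first T c i, 3 + i)

def Adj (T : List Tr) (a b : ℕ × ℕ) : Prop :=
  ∃ c < T.length, ∃ i < 3, ∃ s : Bool,
    (a = esrc c i s ∧ b = edst T c i s) ∨ (b = esrc c i s ∧ a = edst T c i s)

theorem mem_Vs {T : List Tr} {a : ℕ × ℕ} : a ∈ Vs T ↔ a.1 < T.length ∧ a.2 < 6 := by
  obtain ⟨c, j⟩ := a
  simp only [Vs, List.mem_flatMap, List.mem_range, List.mem_cons, Prod.mk.injEq, List.not_mem_nil,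
    or_false]
  constructor
  · rintro ⟨c', h, h2⟩
    omega
  · rintro ⟨h1, h2⟩
    exact ⟨c, h1, by omega⟩

theorem length_Vs (T : List Tr) : (Vs T).length = 6 * T.length := by
  simp [Vs, List.length_flatMap, mul_comm]

theorem nodup_Vs (T : List Tr) : (Vs T).Nodup := by
  unfold Vs
  rw [List.nodup_flatMap]
  refine ⟨fun c _ => by simp, ?_⟩
  refine List.nodup_range.pairwise_of_forall_ne ?_
  intro c _ c' _ h
  simp only [Function.onFun, List.disjoint_left]
  intro a ha hb
  simp only [List.mem_cons, List.not_mem_nil, or_false] at ha hb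
  have h1 : a.1 = c := by rcases ha with h | h | h | h | h | h <;> rw [h]
  have h2 : a.1 = c' := by rcases hb with h | h | h | h | h | h <;> rw [h]
  exact h (h1.symm.trans h2)

theorem mem_Ks {B : ℕ} {κ : ℕ × ℕ} : κ ∈ Ks B ↔ κ.1 < 3 ∧ κ.2 ≤ B := by
  obtain ⟨i, r⟩ := κ
  simp only [Ks, List.mem_flatMap, List.mem_range, List.mem_map, Prod.mk.injEq]
  constructor
  · rintro ⟨i', h, r', h2, h3, h4⟩
    omega
  · rintro ⟨h1, h2⟩
    exact ⟨i, h1, r, by omega, rfl, rfl⟩

theorem length_Ks (B : ℕ) : (Ks B).length = 3 * (B + 1) := by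
  simp [Ks, List.length_flatMap]
  omega

theorem nodup_Ks (B : ℕ) : (Ks B).Nodup := by
  unfold Ks
  rw [List.nodup_flatMap]
  refine ⟨fun i _ => List.nodup_range.map (fun a b h => (Prod.ext_iff.1 h).2), ?_⟩
  refine List.nodup_range.pairwise_of_forall_ne ?_
  intro c _ c' _ h
  simp only [Function.onFun, List.disjoint_left, List.mem_map]
  rintro a ⟨r, _, rfl⟩ ⟨r', _, h2⟩
  exact h (Prod.ext_iff.1 h2).1.symm

theorem first_spec {T : List Tr} {c : ℕ} (hc : c < T.length) (i : ℕ) :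
    first T c i < T.length ∧ key T (first T c i) i = key T c i := by
  unfold first
  set L := (List.range T.length).filter (fun c' => decide (key T c' i = key T c i)) with hL
  have h1 : c ∈ L := by simp [hL, hc]
  have h2 : L.getD 0 0 ∈ L := by
    cases hL2 : L with
    | nil => rw [hL2] at h1; simp at h1
    | cons a l => simp
  rw [hL] at h2
  simpa using h2

theorem first_eq_iff {T : List Tr} {c c' : ℕ} (hc : c < T.length) (hc' : c' < T.length) (i : ℕ) :
    first T c i = first T c' i ↔ key T c i = key T c' i := by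
  constructor
  · intro h
    rw [← (first_spec hc i).2, ← (first_spec hc' i).2, h]
  · intro h
    unfold first
    rw [h]

theorem rank_lt_of_lt {T : List Tr} {c c' i : ℕ} (hc' : c' < T.length) (h : c < c')
    (hk : key T c i = key T c' i) : rank T c i < rank T c' i := by
  unfold rank
  rw [← List.countP_eq_length_filter, ← List.countP_eq_length_filter]
  have hc : c ∈ List.range T.length := by simp; omega
  obtain ⟨l1, l2, hl⟩ := List.append_of_mem hc
  rw [hl, List.countP_append, List.countP_append, List.countP_cons, List.countP_cons]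
  have e1 : ∀ l : List ℕ, l.countP (fun c'' => decide (c'' < c ∧ key T c'' i = key T c i)) ≤
      l.countP (fun c'' => decide (c'' < c' ∧ key T c'' i = key T c' i)) := by
    intro l
    apply List.countP_mono_left
    intro x _ hx
    simp only [decide_eq_true_eq] at hx ⊢
    exact ⟨by omega, hx.2.trans hk⟩
  have e2 := e1 l1
  have e3 := e1 l2
  simp only [lt_self_iff_false, false_and, decide_false, Bool.false_eq_true, if_false, h, hk,
    and_self, decide_true, if_true]
  simp only [hk] at e2 e3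
  omega

theorem eq_of_rank {T : List Tr} {c c' i : ℕ} (hc : c < T.length) (hc' : c' < T.length)
    (hk : key T c i = key T c' i) (hr : rank T c i = rank T c' i) : c = c' := by
  rcases lt_trichotomy c c' with h | h | h
  · have := rank_lt_of_lt hc' h hk; omega
  · exact h
  · have := rank_lt_of_lt hc h hk.symm; omega

theorem countP_key (T : List Tr) (i a : ℕ) :
    (List.range T.length).countP (fun c => decide (key T c i = a)) =
      T.countP (fun t => decide (co i t = a)) := by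
  have h : T = (List.range T.length).map (fun c => T.getD c (0, 0, 0)) := by
    apply List.ext_getElem (by simp)
    intro n h1 h2
    simp [List.getD_eq_getElem?_getD, h1]
  conv_rhs => rw [h]
  rw [List.countP_map]
  rfl

/-- the occurrence bound -/
def Bd (B : ℕ) (T : List Tr) : Prop := ∀ i a : ℕ, T.countP (fun t => decide (co i t = a)) ≤ B

theorem bd_of_inst {B : ℕ} {T : List Tr} (h : (max3DM B).inst T) : Bd B T := by
  intro i a
  obtain ⟨h1, h2, h3⟩ := h.2.2 a
  unfold co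
  by_cases hi : i = 0
  · simpa [hi] using h1
  · by_cases hj : i = 1
    · simpa [hi, hj] using h2
    · simpa [hi, hj] using h3

theorem rank_lt {B : ℕ} {T : List Tr} (hB : Bd B T) {c : ℕ} (hc : c < T.length) (i : ℕ) :
    rank T c i < B := by
  have h1 := hB i (key T c i)
  rw [← countP_key] at h1
  unfold rank
  rw [← List.countP_eq_length_filter]
  have hc2 : c ∈ List.range T.length := by simpa using hc
  obtain ⟨l1, l2, hl⟩ := List.append_of_mem hc2
  rw [hl, List.countP_append, List.countP_cons] at h1 ⊢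
  have e1 : ∀ l : List ℕ, l.countP (fun c'' => decide (c'' < c ∧ key T c'' i = key T c i)) ≤
      l.countP (fun c'' => decide (key T c'' i = key T c i)) := by
    intro l
    apply List.countP_mono_left
    intro x _ hx
    simp only [decide_eq_true_eq] at hx ⊢
    exact hx.2
  have e2 := e1 l1
  have e3 := e1 l2
  simp only [lt_self_iff_false, false_and, decide_false, Bool.false_eq_true, if_false,
    decide_true, if_true] at h1 ⊢
  omega

/-- a directed edge of colour `κ` -/
def DE (B : ℕ) (T : List Tr) (κ a b : ℕ × ℕ) : Prop :=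
  (κ.2 = B ∧ a.2 = ss κ.1 ∧ b = (a.1, dd κ.1)) ∨
    (κ.2 ≠ B ∧ a.2 = dd κ.1 ∧ rank T a.1 κ.1 = κ.2 ∧ b = (first T a.1 κ.1, 3 + κ.1))

theorem ss_ne_dd (i : ℕ) : ss i ≠ dd i := by unfold ss dd; split_ifs <;> omega

theorem dd_lt (i : ℕ) : dd i < 2 := by unfold dd; split_ifs <;> omega

theorem ss_lt (i : ℕ) : ss i < 3 := by unfold ss; split_ifs <;> omega

theorem DE.tgt_eq {B : ℕ} {T : List Tr} {κ a b : ℕ × ℕ} (h : DE B T κ a b) :
    tgt B T κ a = b ∧ tgt B T κ b = b ∧ a ≠ b := by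
  have h1 := ss_ne_dd κ.1
  have h2 := dd_lt κ.1
  unfold tgt
  rcases h with ⟨e1, e2, e3⟩ | ⟨e1, e2, e3, e4⟩
  · subst e3
    refine ⟨by simp [e1, e2], by simp [e1, h1.symm], ?_⟩
    intro h
    have := congrArg Prod.snd h
    simp only at this
    omega
  · subst e4
    refine ⟨by simp [e1, e2, e3], ?_, ?_⟩
    · have : 3 + κ.1 ≠ dd κ.1 := by omega
      simp [e1, this]
    · intro h
      have := congrArg Prod.snd h
      simp only at this
      omega

theorem tgt_eq_iff {B : ℕ} {T : List Tr} {κ a b : ℕ × ℕ} (ha : a.1 < T.length)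
    (hb : b.1 < T.length) (hab : a ≠ b) :
    tgt B T κ a = tgt B T κ b ↔ DE B T κ a b ∨ DE B T κ b a := by
  constructor
  · intro h
    unfold tgt at h
    unfold DE
    by_cases e1 : κ.2 = B
    · simp only [e1, if_true] at h
      by_cases e2 : a.2 = ss κ.1
      · by_cases e3 : b.2 = ss κ.1
        · simp only [e2, e3, if_true, Prod.mk.injEq, and_true] at h
          exact absurd (Prod.ext h (e2.trans e3.symm)) hab
        · simp only [e2, e3, if_true, if_false] at h
          exact Or.inl (Or.inl ⟨e1, e2, h.symm⟩)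
      · by_cases e3 : b.2 = ss κ.1
        · simp only [e2, e3, if_true, if_false] at h
          exact Or.inr (Or.inl ⟨e1, e3, h⟩)
        · simp only [e2, e3, if_false] at h
          exact absurd h hab
    · simp only [e1, if_false] at h
      by_cases e2 : a.2 = dd κ.1 ∧ rank T a.1 κ.1 = κ.2
      · by_cases e3 : b.2 = dd κ.1 ∧ rank T b.1 κ.1 = κ.2
        · rw [if_pos e2, if_pos e3] at h
          have h1 := (first_eq_iff ha hb κ.1).1 (Prod.ext_iff.1 h).1
          exact absurd (Prod.ext (eq_of_rank ha hb h1 (e2.2.trans e3.2.symm))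
            (e2.1.trans e3.1.symm)) hab
        · rw [if_pos e2, if_neg e3] at h
          exact Or.inl (Or.inr ⟨e1, e2.1, e2.2, h.symm⟩)
      · by_cases e3 : b.2 = dd κ.1 ∧ rank T b.1 κ.1 = κ.2
        · rw [if_neg e2, if_pos e3] at h
          exact Or.inr (Or.inr ⟨e1, e3.1, e3.2, h⟩)
        · rw [if_neg e2, if_neg e3] at h
          exact absurd h hab
  · rintro (h | h)
    · rw [h.tgt_eq.1, h.tgt_eq.2.1]
    · rw [h.tgt_eq.1, h.tgt_eq.2.1]

theorem side_ne {B : ℕ} {T : List Tr} {κ a b : ℕ × ℕ} (ha : a.1 < T.length)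
    (hb : b.1 < T.length) (hab : a ≠ b) (h : tgt B T κ a = tgt B T κ b) :
    decide (tgt B T κ a = a) = !decide (tgt B T κ b = b) := by
  rcases (tgt_eq_iff ha hb hab).1 h with h | h
  · obtain ⟨h1, h2, h3⟩ := h.tgt_eq
    rw [h1, h2]; simp [h3.symm]
  · obtain ⟨h1, h2, h3⟩ := h.tgt_eq
    rw [h1, h2]; simp [h3.symm]

theorem DE_unique {B : ℕ} {T : List Tr} {κ κ' a b : ℕ × ℕ} (hκ : κ.1 < 3) (hκ' : κ'.1 < 3)
    (h : DE B T κ a b) (h' : DE B T κ' a b ∨ DE B T κ' b a) : κ = κ' := by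
  obtain ⟨i, r⟩ := κ
  obtain ⟨i', r'⟩ := κ'
  obtain ⟨a1, a2⟩ := a
  obtain ⟨b1, b2⟩ := b
  unfold DE at h h'
  simp only [Prod.mk.injEq] at h h' hκ hκ' ⊢
  have d1 : ∀ i < 3, (i = 0 ∧ ss i = 1 ∧ dd i = 0) ∨ (i = 1 ∧ ss i = 2 ∧ dd i = 0) ∨
      (i = 2 ∧ ss i = 2 ∧ dd i = 1) := by decide
  have q1 := d1 i hκ
  have q2 := d1 i' hκ'
  rcases h with h | h
  · rcases h' with (h' | h') | (h' | h') <;> omega
  · rcases h' with (h' | h') | (h' | h')
    · omega
    · have : i = i' := by omega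
      subst this
      exact ⟨rfl, by omega⟩
    · omega
    · omega

theorem adj_iff {B : ℕ} {T : List Tr} (hB : Bd B T) {a b : ℕ × ℕ} (ha : a.1 < T.length)
    (hb : b.1 < T.length) : Adj T a b ↔ ∃ κ ∈ Ks B, DE B T κ a b ∨ DE B T κ b a := by
  have key1 : ∀ c < T.length, ∀ i < 3, ∀ s : Bool,
      ∃ κ ∈ Ks B, DE B T κ (esrc c i s) (edst T c i s) := by
    intro c hc i hi s
    cases s
    · have := rank_lt hB hc i
      refine ⟨(i, rank T c i), mem_Ks.2 ⟨hi, this.le⟩, Or.inr ⟨this.ne, ?_, ?_, ?_⟩⟩ <;>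
        simp [esrc, edst]
    · refine ⟨(i, B), mem_Ks.2 ⟨hi, le_rfl⟩, Or.inl ⟨rfl, ?_, ?_⟩⟩ <;> simp [esrc, edst]
  have key2 : ∀ κ ∈ Ks B, ∀ a b : ℕ × ℕ, a.1 < T.length → DE B T κ a b →
      ∃ c < T.length, ∃ i < 3, ∃ s : Bool, a = esrc c i s ∧ b = edst T c i s := by
    intro κ hκ a b ha h
    rcases h with ⟨_, e2, e3⟩ | ⟨_, e2, _, e4⟩
    · exact ⟨a.1, ha, κ.1, (mem_Ks.1 hκ).1, true, by simp [esrc, ← e2], by simp [edst, e3]⟩
    · exact ⟨a.1, ha, κ.1, (mem_Ks.1 hκ).1, false, by simp [esrc, ← e2], by simp [edst, e4]⟩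
  constructor
  · rintro ⟨c, hc, i, hi, s, ⟨rfl, rfl⟩ | ⟨rfl, rfl⟩⟩
    · obtain ⟨κ, h1, h2⟩ := key1 c hc i hi s
      exact ⟨κ, h1, Or.inl h2⟩
    · obtain ⟨κ, h1, h2⟩ := key1 c hc i hi s
      exact ⟨κ, h1, Or.inr h2⟩
  · rintro ⟨κ, hκ, h | h⟩
    · obtain ⟨c, hc, i, hi, s, h⟩ := key2 κ hκ a b ha h
      exact ⟨c, hc, i, hi, s, Or.inl h⟩
    · obtain ⟨c, hc, i, hi, s, h⟩ := key2 κ hκ b a hb h
      exact ⟨c, hc, i, hi, s, Or.inr h⟩

open Classical in
theorem countP_tgt {B : ℕ} {T : List Tr} (hB : Bd B T) {a b : ℕ × ℕ} (ha : a.1 < T.length)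
    (hb : b.1 < T.length) (hab : a ≠ b) :
    (Ks B).countP (fun κ => decide (tgt B T κ a = tgt B T κ b)) = if Adj T a b then 1 else 0 := by
  split_ifs with h
  · obtain ⟨κ, hκ, h⟩ := (adj_iff hB ha hb).1 h
    have e : (Ks B).countP (fun κ => decide (tgt B T κ a = tgt B T κ b)) =
        (Ks B).countP (fun κ' => κ' == κ) := by
      apply List.countP_congr
      intro κ' hκ'
      simp only [decide_eq_true_eq, beq_iff_eq]
      rw [tgt_eq_iff ha hb hab]
      constructor
      · intro h'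
        rcases h with h | h
        · exact (DE_unique (mem_Ks.1 hκ).1 (mem_Ks.1 hκ').1 h h').symm
        · exact (DE_unique (mem_Ks.1 hκ).1 (mem_Ks.1 hκ').1 h h'.symm).symm
      · rintro rfl
        exact h
    rw [e, ← List.count_eq_countP]
    exact List.count_eq_one_of_mem (nodup_Ks B) hκ
  · rw [List.countP_eq_zero]
    intro κ hκ h'
    simp only [decide_eq_true_eq] at h'
    exact h ((adj_iff hB ha hb).2 ⟨κ, hκ, (tgt_eq_iff ha hb hab).1 h'⟩)

theorem tgt_mem {B : ℕ} {T : List Tr} {κ a : ℕ × ℕ} (hκ : κ ∈ Ks B) (ha : a ∈ Vs T) :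
    tgt B T κ a ∈ Vs T := by
  rw [mem_Vs] at ha ⊢
  have h1 := dd_lt κ.1
  have h2 := (mem_Ks.1 hκ).1
  unfold tgt
  split_ifs
  · exact ⟨ha.1, by simp only; omega⟩
  · exact ha
  · exact ⟨(first_spec ha.1 _).1, by simp only; omega⟩
  · exact ha

end Pool.Agent.H371Z.Tri
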