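import Pool.Agent.H371Z.Tri.Red

set_option autoImplicit false

namespace Pool.Agent.H371Z.Tri

abbrev Vx : Type := ℕ × ℕ

def blockA (T M : List Tr) (c : ℕ) : List (Vx × Vx × Vx) :=
  if T.getD c (0, 0, 0) ∈ M then [(slot T c 0, (c, 0), slot T c 1), (slot T c 2, (c, 1), (c, 2))]
  else [((c, 0), (c, 1), (c, 2))]

def partA (T M : List Tr) : List (Vx × Vx × Vx) := (List.range T.length).flatMap (blockA T M)

theorem flat_flatMap {P α : Type} (f : α → List (P × P × P)) (l : List α) :
    flat (l.flatMap f) = l.flatMap (fun a => flat (f a)) := by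
  induction l with
  | nil => rfl
  | cons a l ih => rw [List.flatMap_cons, List.flatMap_cons, flat_append, ih]

theorem mem_flat_blockA {T M : List Tr} {c : ℕ} {a : Vx} (h : a ∈ flat (blockA T M c)) :
    (a.1 = c ∧ a.2 < 3) ∨ (T.getD c (0, 0, 0) ∈ M ∧ ∃ i < 3, a = slot T c i) := by
  unfold blockA at h
  split_ifs at h with hM
  · simp only [flat, List.flatMap_cons, List.flatMap_nil, List.append_nil, List.cons_append,
      List.nil_append, List.mem_cons, List.not_mem_nil, or_false] at h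
    rcases h with rfl | rfl | rfl | rfl | rfl | rfl
    · exact Or.inr ⟨hM, 0, by omega, rfl⟩
    · exact Or.inl (by simp)
    · exact Or.inr ⟨hM, 1, by omega, rfl⟩
    · exact Or.inr ⟨hM, 2, by omega, rfl⟩
    · exact Or.inl (by simp)
    · exact Or.inl (by simp)
  · simp only [flat, List.flatMap_cons, List.flatMap_nil, List.append_nil, List.mem_cons,
      List.not_mem_nil, or_false] at h
    rcases h with rfl | rfl | rfl <;> exact Or.inl (by simp)

theorem partA_sub {T M : List Tr} : ∀ a ∈ flat (partA T M), a ∈ Vs T := by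
  intro a ha
  rw [partA, flat_flatMap, List.mem_flatMap] at ha
  obtain ⟨c, hc, h⟩ := ha
  rw [List.mem_range] at hc
  rcases mem_flat_blockA h with h | ⟨_, i, hi, rfl⟩
  · exact mem_Vs.2 ⟨by omega, by omega⟩
  · exact slot_mem hc hi

theorem pairwise_nodup {M : List Tr} (h : M.Pairwise Disj) : M.Nodup :=
  h.imp (fun {a b} hab e => hab.1 (by rw [e]))

theorem partA_nodup {T M : List Tr} (hT : T.Nodup) (hM : M.Pairwise Disj) :
    (flat (partA T M)).Nodup := by
  rw [partA, flat_flatMap, List.nodup_flatMap]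
  constructor
  · intro c _
    unfold blockA
    split_ifs <;> simp [flat, slot]
  · refine List.nodup_range.pairwise_of_forall_ne ?_
    intro c hc c' hc' hne
    rw [List.mem_range] at hc hc'
    simp only [Function.onFun, List.disjoint_left]
    intro a ha hb
    rcases mem_flat_blockA ha with h | ⟨h, i, hi, e⟩ <;>
      rcases mem_flat_blockA hb with h' | ⟨h', i', hi', e'⟩
    · omega
    · rw [e'] at h; simp only [slot] at h; omega
    · rw [e] at h'; simp only [slot] at h'; omega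
    · rw [e] at e'
      simp only [slot, Prod.mk.injEq] at e'
      have hii : i = i' := by omega
      subst hii
      have hk := (first_eq_iff hc hc' i).1 e'.1
      have hne2 : T.getD c (0, 0, 0) ≠ T.getD c' (0, 0, 0) := by
        intro e2
        simp only [List.getD_eq_getElem?_getD, List.getElem?_eq_getElem hc,
          List.getElem?_eq_getElem hc', Option.getD_some] at e2
        exact hne ((List.Nodup.getElem_inj_iff hT).1 e2)
      have : Std.Symm Disj := ⟨fun _ _ h => h.symm⟩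
      have hD : Disj (T.getD c (0, 0, 0)) (T.getD c' (0, 0, 0)) := hM.forall h h' hne2
      exact disj_iff_co.1 hD i hi hk

theorem adj_edge {T : List Tr} {c : ℕ} (hc : c < T.length) {i : ℕ} (hi : i < 3) (s : Bool) :
    Adj T (esrc c i s) (edst T c i s) ∧ Adj T (edst T c i s) (esrc c i s) :=
  ⟨⟨c, hc, i, hi, s, Or.inl ⟨rfl, rfl⟩⟩, ⟨c, hc, i, hi, s, Or.inr ⟨rfl, rfl⟩⟩⟩

def tv (w : Vx → Vx → ℝ) (t : Vx × Vx × Vx) : ℝ := w t.1 t.2.1 + w t.2.1 t.2.2 + w t.1 t.2.2

open Classical in
theorem blockA_val {T M : List Tr} {w : Vx → Vx → ℝ} {D Δ : ℝ} (hΔ : 0 ≤ Δ)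
    (hd : ∀ a ∈ Vs T, ∀ b ∈ Vs T, a ≠ b → w a b = if Adj T a b then D + Δ else D)
    {c : ℕ} (hc : c < T.length) :
    3 * D * (blockA T M c).length + (3 + if decide (T.getD c (0, 0, 0) ∈ M) = true then 1 else 0) * Δ ≤
      ((blockA T M c).map (tv w)).sum := by
  have ge : ∀ a ∈ Vs T, ∀ b ∈ Vs T, a ≠ b → D ≤ w a b := by
    intro a ha b hb hab
    rw [hd a ha b hb hab]
    split_ifs <;> linarith
  have eq : ∀ a ∈ Vs T, ∀ b ∈ Vs T, a ≠ b → Adj T a b → w a b = D + Δ := by
    intro a ha b hb hab h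
    rw [hd a ha b hb hab, if_pos h]
  have m0 := own_mem hc (show 0 < 6 by omega)
  have m1 := own_mem hc (show 1 < 6 by omega)
  have m2 := own_mem hc (show 2 < 6 by omega)
  have s0 := slot_mem hc (show 0 < 3 by omega)
  have s1 := slot_mem hc (show 1 < 3 by omega)
  have s2 := slot_mem hc (show 2 < 3 by omega)
  unfold blockA
  by_cases hM : T.getD c (0, 0, 0) ∈ M
  · have e1 := eq _ s0 _ m0 (by simp [slot]) (adj_edge hc (show 0 < 3 by omega) false).2
    have e2 := eq _ m0 _ s1 (by simp [slot]) (adj_edge hc (show 1 < 3 by omega) false).1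
    have e3 := ge _ s0 _ s1 (by simp [slot])
    have e4 := eq _ s2 _ m1 (by simp [slot]) (adj_edge hc (show 2 < 3 by omega) false).2
    have e5 := eq _ m1 _ m2 (by simp) (adj_edge hc (show 2 < 3 by omega) true).2
    have e6 := ge _ s2 _ m2 (by simp [slot])
    simp only [hM, if_true, decide_true, List.length_cons, List.length_nil, List.map_cons,
      List.map_nil, List.sum_cons, List.sum_nil, tv]
    push_cast
    linarith
  · have e1 := eq _ m0 _ m1 (by simp) (adj_edge hc (show 0 < 3 by omega) true).2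
    have e2 := eq _ m1 _ m2 (by simp) (adj_edge hc (show 2 < 3 by omega) true).2
    have e3 := eq _ m0 _ m2 (by simp) (adj_edge hc (show 1 < 3 by omega) true).2
    simp only [hM, if_false, decide_false, List.length_cons, List.length_nil, List.map_cons,
      List.map_nil, List.sum_cons, List.sum_nil, tv, Bool.false_eq_true]
    push_cast
    linarith

open Classical in
theorem partA_val {T M : List Tr} {w : Vx → Vx → ℝ} {D Δ : ℝ} (hΔ : 0 ≤ Δ)
    (hd : ∀ a ∈ Vs T, ∀ b ∈ Vs T, a ≠ b → w a b = if Adj T a b then D + Δ else D) :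
    ∀ L : List ℕ, (∀ c ∈ L, c < T.length) →
      3 * D * (L.flatMap (blockA T M)).length +
        (3 * L.length + L.countP (fun c => decide (T.getD c (0, 0, 0) ∈ M))) * Δ ≤
      ((L.flatMap (blockA T M)).map (tv w)).sum := by
  intro L
  induction L with
  | nil => simp
  | cons c L ih =>
    intro hL
    have h1 := ih (fun c' hc' => hL c' (by simp [hc']))
    have h2 := blockA_val (M := M) hΔ hd (hL c (by simp))
    rw [List.flatMap_cons, List.map_append, List.sum_append, List.length_append, List.countP_cons,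
      List.length_cons]
    split_ifs at h2 ⊢ <;> push_cast <;> linarith

theorem count_ge {T M : List Tr} (h1 : ∀ t ∈ M, t ∈ T) (h2 : M.Pairwise Disj) :
    M.length ≤ (List.range T.length).countP (fun c => decide (T.getD c (0, 0, 0) ∈ M)) := by
  rw [List.countP_eq_length_filter]
  have h3 : M ⊆ ((List.range T.length).filter (fun c => decide (T.getD c (0, 0, 0) ∈ M))).map
      (fun c => T.getD c (0, 0, 0)) := by
    intro t ht
    obtain ⟨c, hc, e⟩ := List.getElem_of_mem (h1 t ht)
    have e2 : T.getD c (0, 0, 0) = t := by simp [List.getD_eq_getElem?_getD, hc, e]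
    refine List.mem_map.2 ⟨c, List.mem_filter.2 ⟨by simpa using hc, ?_⟩, e2⟩
    rw [e2]
    simpa using ht
  simpa using ((pairwise_nodup h2).subperm h3).length_le

theorem sum_ge_len {α : Type} (f : α → ℝ) (D : ℝ) (l : List α) (h : ∀ x ∈ l, D ≤ f x) :
    l.length * D ≤ (l.map f).sum := by
  induction l with
  | nil => simp
  | cons a l ih =>
    have h1 := ih (fun x hx => h x (by simp [hx]))
    have h2 := h a (by simp)
    simp only [List.map_cons, List.sum_cons, List.length_cons]
    push_cast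
    linarith

open Classical in
theorem lowerV {T M : List Tr} (hT : T.Nodup) (h1 : ∀ t ∈ M, t ∈ T) (h2 : M.Pairwise Disj)
    {w : Vx → Vx → ℝ} {D Δ : ℝ} (hΔ : 0 ≤ Δ)
    (hd : ∀ a ∈ Vs T, ∀ b ∈ Vs T, a ≠ b → w a b = if Adj T a b then D + Δ else D) :
    ∃ π : List (Vx × Vx × Vx), (flat π).Perm (Vs T) ∧
      6 * T.length * D + (3 * T.length + M.length) * Δ ≤ (π.map (tv w)).sum := by
  have hn := partA_nodup hT h2
  have hsub : (flat (partA T M)).Subperm (Vs T) := hn.subperm partA_sub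
  have hp := List.subperm_append_diff_self_of_count_le (fun x _ => hsub.count_le x)
  set Lf := (Vs T).diff (flat (partA T M)) with hLf
  have hlen := hp.length_eq
  rw [List.length_append, length_flat, length_Vs] at hlen
  obtain ⟨π2, hπ2⟩ := exists_flat (2 * T.length - (partA T M).length) Lf (by omega)
  have hperm : (flat (partA T M ++ π2)).Perm (Vs T) := by rw [flat_append, hπ2]; exact hp
  refine ⟨partA T M ++ π2, hperm, ?_⟩
  have hn2 : (flat π2).Nodup := by
    rw [hπ2]
    exact (nodup_Vs T).diff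
  have hsub2 : ∀ a ∈ flat π2, a ∈ Vs T := by
    intro a ha
    rw [hπ2] at ha
    exact List.diff_subset _ _ ha
  have e1 := partA_val (M := M) hΔ hd (List.range T.length) (by simp)
  have e2 : (π2.map (tv w)).sum = ((prs π2).map (fun x => w x.1 x.2)).sum := sum_prs w π2
  have e3 := sum_ge_len (fun x : Vx × Vx => w x.1 x.2) D (prs π2) (by
    intro x hx
    obtain ⟨m1, m2, _⟩ := mem_prs hx
    rw [hd _ (hsub2 _ m1) _ (hsub2 _ m2) (prs_ne hn2 hx)]
    split_ifs <;> linarith)
  have e4 : ((M.length : ℕ) : ℝ) ≤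
      ((List.range T.length).countP (fun c => decide (T.getD c (0, 0, 0) ∈ M)) : ℕ) := by
    have := count_ge h1 h2
    exact_mod_cast (by convert this)
  have e5 := mul_le_mul_of_nonneg_right e4 hΔ
  have e6 : (prs π2).length + 3 * (partA T M).length = 6 * T.length := by
    rw [length_prs, ← length_flat π2, hπ2]; omega
  have e7 : ((prs π2).length : ℝ) = 6 * T.length - 3 * (partA T M).length := by
    have : ((prs π2).length : ℝ) + 3 * (partA T M).length = 6 * T.length := by exact_mod_cast e6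
    linarith
  rw [List.map_append, List.sum_append, e2]
  rw [e7] at e3
  rw [List.length_range] at e1
  unfold partA at e3 ⊢
  linarith

open Classical in
theorem lower {P : Type} {T M : List Tr} (hT : T.Nodup) (h1 : ∀ t ∈ M, t ∈ T)
    (h2 : M.Pairwise Disj) {pt : Vx → P} {d : P → P → ℝ} {D Δ : ℝ} (hΔ : 0 ≤ Δ)
    (hd : ∀ a ∈ Vs T, ∀ b ∈ Vs T, a ≠ b → d (pt a) (pt b) = if Adj T a b then D + Δ else D) :
    ∃ π : List (P × P × P), (flat π).Perm ((Vs T).map pt) ∧
      6 * T.length * D + (3 * T.length + M.length) * Δ ≤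
        (π.map (fun t => d t.1 t.2.1 + d t.2.1 t.2.2 + d t.1 t.2.2)).sum := by
  obtain ⟨π, hπ, h⟩ := lowerV hT h1 h2 (w := fun a b => d (pt a) (pt b)) hΔ hd
  refine ⟨π.map (fun t => (pt t.1, pt t.2.1, pt t.2.2)), ?_, ?_⟩
  · have : flat (π.map (fun t => (pt t.1, pt t.2.1, pt t.2.2))) = (flat π).map pt := by
      simp [flat, List.flatMap_map, List.map_flatMap]
    rw [this]
    exact hπ.map pt
  · rw [List.map_map]
    exact h

open Classical in
theorem comb_main {P : Type} [DecidableEq P] {B : ℕ} {T : List Tr} (hT : (max3DM B).inst T)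
    {pt : Vx → P} {d : P → P → ℝ} {D Δ ρ : ℝ} (hΔ : 0 < Δ) (hD : 0 ≤ D) (hρ : D ≤ ρ * Δ)
    (hinj : ∀ a ∈ Vs T, ∀ b ∈ Vs T, pt a = pt b → a = b)
    (hd : ∀ a ∈ Vs T, ∀ b ∈ Vs T, a ≠ b → d (pt a) (pt b) = if Adj T a b then D + Δ else D)
    {π : List (P × P × P)} (hπ : (flat π).Perm ((Vs T).map pt)) :
    (max3DM B).sol T (dec T pt π) ∧ ∀ r : ℝ, 1 < r →
      (∀ π' : List (P × P × P), (flat π').Perm ((Vs T).map pt) →
        (π'.map (fun t => d t.1 t.2.1 + d t.2.1 t.2.2 + d t.1 t.2.2)).sum ≤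
          r * (π.map (fun t => d t.1 t.2.1 + d t.2.1 t.2.2 + d t.1 t.2.2)).sum) →
      (max3DM B).Approx (1 + (18 * B * ρ + 9 * B + 1) * (r - 1)) T (dec T pt π) := by
  have hn : (flat π).Nodup := hπ.nodup_iff.2 ((nodup_Vs T).map_on hinj)
  obtain ⟨s1, s2⟩ := M0_sol hinj hn
  obtain ⟨g1, g2, g3, _, g5⟩ := greedy_spec T T (M0 T pt π) (fun _ h => h) s1 s2
  refine ⟨⟨g1, g2⟩, ?_⟩
  intro r hr happ M hM
  obtain ⟨π', hπ', hl⟩ := lower hT.2.1 hM.1 hM.2 hΔ.le hd
  have hu := upper hΔ.le hinj hd hπ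
  rw [← sum_prs] at hu
  have h1 := happ π' hπ'
  have h2 : (T.length : ℝ) ≤ 3 * B * (dec T pt π).length := by
    exact_mod_cast length_le_of_cover (bd_of_inst hT) g5
  have h3 : ((M0 T pt π).length : ℝ) ≤ (dec T pt π).length := by exact_mod_cast g3
  change (M.length : ℝ) ≤ (1 + (18 * B * ρ + 9 * B + 1) * (r - 1)) * ((dec T pt π).length : ℝ)
  set G : ℝ := ((dec T pt π).length : ℝ)
  set m : ℝ := (T.length : ℝ)
  set k : ℝ := (M.length : ℝ)
  have hm : 0 ≤ m := Nat.cast_nonneg _
  have hρ0 : 0 ≤ ρ := by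
    by_contra hc
    have : ρ * Δ < 0 := mul_neg_of_neg_of_pos (not_le.1 hc) hΔ
    linarith
  have h4 : (π.map (fun t => d t.1 t.2.1 + d t.2.1 t.2.2 + d t.1 t.2.2)).sum ≤
      6 * m * D + (3 * m + G) * Δ := by
    have := mul_le_mul_of_nonneg_right h3 hΔ.le
    linarith
  have h5 : 6 * m * D + (3 * m + k) * Δ ≤ r * (6 * m * D + (3 * m + G) * Δ) :=
    hl.trans (h1.trans (mul_le_mul_of_nonneg_left h4 (by linarith)))
  have h6 : 6 * m * D + (3 * m + G) * Δ ≤ (18 * B * ρ + 9 * B + 1) * G * Δ := by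
    have a1 : m * D ≤ m * (ρ * Δ) := mul_le_mul_of_nonneg_left hρ hm
    have a2 : m * (ρ * Δ) ≤ 3 * B * G * (ρ * Δ) :=
      mul_le_mul_of_nonneg_right h2 (mul_nonneg hρ0 hΔ.le)
    have a3 : m * Δ ≤ 3 * B * G * Δ := mul_le_mul_of_nonneg_right h2 hΔ.le
    nlinarith
  have h7 : (r - 1) * (6 * m * D + (3 * m + G) * Δ) ≤
      (r - 1) * ((18 * B * ρ + 9 * B + 1) * G * Δ) :=
    mul_le_mul_of_nonneg_left h6 (by linarith)
  have h8 : k * Δ ≤ (1 + (18 * B * ρ + 9 * B + 1) * (r - 1)) * G * Δ := by nlinarith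
  exact le_of_mul_le_mul_right h8 hΔ

end Pool.Agent.H371Z.Tri
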