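import Pool.Agent.H371Z.Tri.Emb
import Pool.Agent.H671R2.PolyAuto

set_option autoImplicit false

namespace Pool.Agent.H371Z.Tri

open Pool.Agent.NPC Turing

theorem polyFun_of_poly {α β : Type} [TEnc α] [TEnc β] {f : α → β} (h : Poly f) : PolyFun f := by
  obtain ⟨c, p, h⟩ := h
  have key : ∀ x : α, ∃ t, t ≤ p.eval (bits x).length + 1 ∧
      Nonempty (TM2OutputsInTime (c.map (Fin.ofNat (c.bd + 1))).toTM (bits x)
        (some (bits (f x))) t) := by
    intro x
    obtain ⟨t, ht, hr⟩ := h x
    have h1 := hr.restrict (n := c.bd) (by omega)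
    refine ⟨t + 1, by simpa using ht, toTM_outputs ?_⟩
    convert! h1 using 1
    · funext i
      by_cases hi : i = 0
      · subst hi; simp [inp]
      · have : (i : ℕ) ≠ 0 := fun h => hi (Fin.ext h)
        simp [inp, hi, this]
    · funext i
      by_cases hi : i = 0
      · subst hi; simp [inp]
      · have : (i : ℕ) ≠ 0 := fun h => hi (Fin.ext h)
        simp [inp, hi, this]
  refine ⟨{ tm := (c.map (Fin.ofNat (c.bd + 1))).toTM
            inputAlphabet := Equiv.refl Bool
            outputAlphabet := Equiv.refl Bool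
            time := p + 1
            outputsFun := ?_ }⟩
  intro x
  have hx := key x
  have ht := hx.choose_spec.1
  have hm := hx.choose_spec.2.some
  refine outputs_conv (List.map_id (bits x)).symm (List.map_id (bits (f x))).symm (ht.trans ?_) hm
  simp

variable {α : Type} [TEnc α]

@[fun_prop] theorem poly_rangeLen {β : Type} [TEnc β] {l : α → List β} (hl : Poly l) :
    Poly (fun a => List.range (l a).length) := Poly.range_length hl

@[fun_prop] theorem poly_bits {n : α → ℕ} (hn : Poly n) : Poly (fun a => (n a).bits) :=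
  Poly.natBits hn

@[fun_prop] theorem poly_co {i : α → ℕ} {t : α → Tr} (hi : Poly i) (ht : Poly t) :
    Poly (fun a => co (i a) (t a)) := by
  unfold co; fun_prop

@[fun_prop] theorem poly_key {T : α → List Tr} {c i : α → ℕ} (hT : Poly T) (hc : Poly c)
    (hi : Poly i) : Poly (fun a => key (T a) (c a) (i a)) := by
  unfold key; fun_prop

@[fun_prop] theorem poly_first {T : α → List Tr} {c i : α → ℕ} (hT : Poly T) (hc : Poly c)
    (hi : Poly i) : Poly (fun a => first (T a) (c a) (i a)) := by
  unfold first; fun_prop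

@[fun_prop] theorem poly_rank {T : α → List Tr} {c i : α → ℕ} (hT : Poly T) (hc : Poly c)
    (hi : Poly i) : Poly (fun a => rank (T a) (c a) (i a)) := by
  unfold rank; fun_prop

@[fun_prop] theorem poly_dd {i : α → ℕ} (hi : Poly i) : Poly (fun a => dd (i a)) := by
  unfold dd; fun_prop

@[fun_prop] theorem poly_ss {i : α → ℕ} (hi : Poly i) : Poly (fun a => ss (i a)) := by
  unfold ss; fun_prop

@[fun_prop] theorem poly_tgt (B : ℕ) {T : α → List Tr} {κ v : α → ℕ × ℕ} (hT : Poly T)
    (hκ : Poly κ) (hv : Poly v) : Poly (fun a => tgt B (T a) (κ a) (v a)) := by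
  unfold tgt; fun_prop

@[fun_prop] theorem poly_Vs {T : α → List Tr} (hT : Poly T) : Poly (fun a => Vs (T a)) := by
  unfold Vs; fun_prop

@[fun_prop] theorem poly_slot {T : α → List Tr} {c i : α → ℕ} (hT : Poly T) (hc : Poly c)
    (hi : Poly i) : Poly (fun a => slot (T a) (c a) (i a)) := by
  unfold slot; fun_prop

@[fun_prop] theorem poly_idx {v : α → Vx} (hv : Poly v) : Poly (fun a => idx (v a)) := by
  unfold idx; fun_prop

@[fun_prop] theorem poly_pad {N n : α → ℕ} (hN : Poly N) (hn : Poly n) :
    Poly (fun a => pad (N a) (n a)) := by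
  unfold pad; fun_prop

theorem poly_had_pad {N n : α → ℕ} (hN : UPoly N) (hn : Poly n) :
    Poly (fun a => had (pad (N a) (n a))) := by
  obtain ⟨r, hr⟩ := Poly.sz_le hN
  unfold had
  refine Poly.foldr (F := fun _ b s => hstep b s) (poly_pad hN.toPoly hn) (NPC.Poly.const _)
    (by unfold hstep; fun_prop) (Polynomial.C 8 * r + Polynomial.C 5) ?_
  intro a k _
  have h1 := sz_listBool_le (had ((pad (N a) (n a)).drop k))
  have h2 := had_length ((pad (N a) (n a)).drop k)
  have h3 : 2 ^ ((pad (N a) (n a)).drop k).length ≤ 2 ^ (N a).size :=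
    Nat.pow_le_pow_right (by omega) (by rw [List.length_drop, pad_length]; omega)
  have h4 : 2 ^ (N a).size ≤ 2 * N a + 1 := by
    rcases Nat.eq_zero_or_pos (N a) with h | h
    · rw [h]; simp
    · have h5 : 0 < (N a).size := Nat.size_pos.2 h
      have h6 : 2 ^ ((N a).size - 1) ≤ N a := Nat.lt_size.1 (by omega)
      have h7 : 2 ^ (N a).size = 2 * 2 ^ ((N a).size - 1) := by
        rw [← pow_succ']; congr 1; omega
      omega
  have h5 := hr a
  have h6 := length_lt_sz (List.replicate (N a) ())
  rw [List.length_replicate] at h6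
  simp only [Polynomial.eval_add, Polynomial.eval_mul, Polynomial.eval_C]
  change sz (had ((pad (N a) (n a)).drop k)) ≤ _
  omega

theorem upoly_six {T : α → List Tr} (hT : Poly T) : UPoly (fun a => 6 * (T a).length) :=
  (UPoly.const 6).mul (UPoly.length hT)

@[fun_prop] theorem poly_rowH {T : α → List Tr} {n : α → ℕ} {s : α → Bool} (hT : Poly T)
    (hn : Poly n) (hs : Poly s) : Poly (fun a => rowH (6 * (T a).length) (n a) (s a)) := by
  have := poly_had_pad (upoly_six hT) hn
  unfold rowH
  exact NPC.Poly.map this (by fun_prop)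

@[fun_prop] theorem poly_ptF (B : ℕ) {T : α → List Tr} {v : α → Vx} (hT : Poly T) (hv : Poly v) :
    Poly (fun a => ptF B (T a) (v a)) := by
  unfold ptF codeH
  refine NPC.Poly.map (Poly.flatMap (NPC.Poly.const _) ?_) (by unfold toQ; fun_prop)
  exact poly_rowH (by fun_prop) (by fun_prop) (by fun_prop)

@[fun_prop] theorem poly_ptI (B : ℕ) {T : α → List Tr} {v : α → Vx} (hT : Poly T) (hv : Poly v) :
    Poly (fun a => ptI B (T a) (v a)) := by
  unfold ptI
  refine Poly.flatMap (NPC.Poly.const _) (NPC.Poly.map (upoly_six (by fun_prop)).range ?_)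
  unfold cI
  fun_prop

abbrev Pt : Type := List ℚ

@[fun_prop] theorem poly_same {π : α → List (Pt × Pt × Pt)} {p q : α → Pt} (hπ : Poly π)
    (hp : Poly p) (hq : Poly q) : Poly (fun a => same (π a) (p a) (q a)) := by
  unfold same inT; fun_prop

theorem poly_M0 {pt : List Tr → Vx → Pt} (hpt : Poly (fun x : List Tr × Vx => pt x.1 x.2))
    {T : α → List Tr} {π : α → List (Pt × Pt × Pt)} (hT : Poly T) (hπ : Poly π) :
    Poly (fun a => M0 (T a) (pt (T a)) (π a)) := by
  have h : ∀ {β : Type} [TEnc β] {T : β → List Tr} {v : β → Vx}, Poly T → Poly v →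
      Poly (fun a => pt (T a) (v a)) := fun h1 h2 => hpt.comp (Poly.pair h1 h2)
  unfold M0
  refine NPC.Poly.map (Poly.filter (by fun_prop) ?_) (by fun_prop)
  unfold on
  refine Poly.and (Poly.and (Poly.and ?_ ?_) ?_) ?_ <;>
    exact poly_same (by fun_prop) (h (by fun_prop) (by fun_prop)) (h (by fun_prop) (by fun_prop))

theorem sz_greedy : ∀ (L M : List Tr), sz (L.foldl gstep M) ≤ sz L + sz M
  | [], M => by simp
  | t :: L, M => by
    have h1 := sz_greedy L (gstep M t)
    have h2 : sz (gstep M t) ≤ sz t + sz M + 1 := by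
      unfold gstep
      split_ifs
      · simp
      · omega
    rw [List.foldl_cons]
    simp only [sz_list_cons]
    omega

theorem poly_greedy {T M : α → List Tr} (hT : Poly T) (hM : Poly M) :
    Poly (fun a => greedy (T a) (M a)) := by
  obtain ⟨r1, h1⟩ := hT.sz_le
  obtain ⟨r2, h2⟩ := hM.sz_le
  unfold greedy
  refine Poly.foldl (F := fun _ s b => gstep s b) hT hM (by unfold gstep disjB; fun_prop)
    (r1 + r2) ?_
  intro a k _
  have e1 := sz_greedy ((T a).take k) (M a)
  have e2 := Poly.sz_take_le (T a) k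
  have e3 := h1 a
  have e4 := h2 a
  rw [Polynomial.eval_add]
  change sz (((T a).take k).foldl gstep (M a)) ≤ _
  omega

theorem poly_dec {pt : List Tr → Vx → Pt} (hpt : Poly (fun x : List Tr × Vx => pt x.1 x.2)) :
    Poly (fun x : List Tr × List (Pt × Pt × Pt) => dec x.1 (pt x.1) x.2) :=
  poly_greedy (by fun_prop) (poly_M0 hpt (by fun_prop) (by fun_prop))

end Pool.Agent.H371Z.Tri
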