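import Pool.Agent.H371Z.Tri.Comb

set_option autoImplicit false

namespace Pool.Agent.H371Z.Tri

def disjB (s t : Tr) : Bool := !decide (s.1 = t.1) && !decide (s.2.1 = t.2.1) && !decide (s.2.2 = t.2.2)

theorem disjB_iff {s t : Tr} : disjB s t = true ↔ Disj s t := by simp [disjB, Disj, and_assoc]

theorem Disj.symm {s t : Tr} (h : Disj s t) : Disj t s := ⟨h.1.symm, h.2.1.symm, h.2.2.symm⟩

theorem disj_iff_co {s t : Tr} : Disj s t ↔ ∀ i < 3, co i s ≠ co i t := by
  constructor
  · intro h i _
    unfold co
    split_ifs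
    · exact h.1
    · exact h.2.1
    · exact h.2.2
  · intro h
    exact ⟨by simpa [co] using h 0 (by omega), by simpa [co] using h 1 (by omega),
      by simpa [co] using h 2 (by omega)⟩

def gstep (M : List Tr) (t : Tr) : List Tr := if M.all (fun s => disjB t s) = true then t :: M else M

def greedy (L M : List Tr) : List Tr := L.foldl gstep M

theorem greedy_spec (T : List Tr) : ∀ (L M : List Tr), (∀ t ∈ L, t ∈ T) → (∀ t ∈ M, t ∈ T) →
    M.Pairwise Disj → (∀ t ∈ greedy L M, t ∈ T) ∧ (greedy L M).Pairwise Disj ∧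
      M.length ≤ (greedy L M).length ∧ (∀ s ∈ M, s ∈ greedy L M) ∧
      ∀ t ∈ L, ∃ s ∈ greedy L M, ¬ Disj t s
  | [], M, _, h2, h3 => ⟨h2, h3, le_rfl, fun _ h => h, by simp⟩
  | t :: L, M, h1, h2, h3 => by
    have e : greedy (t :: L) M = greedy L (gstep M t) := rfl
    have a1 : ∀ s ∈ gstep M t, s ∈ T := by
      intro s hs
      unfold gstep at hs
      split_ifs at hs
      · rcases List.mem_cons.1 hs with h | h
        · exact h ▸ h1 t (by simp)
        · exact h2 s h
      · exact h2 s hs
    have a2 : (gstep M t).Pairwise Disj := by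
      unfold gstep
      split_ifs with h
      · refine List.pairwise_cons.2 ⟨fun s hs => disjB_iff.1 (List.all_eq_true.1 h s hs), h3⟩
      · exact h3
    have a3 : M.length ≤ (gstep M t).length := by
      unfold gstep; split_ifs <;> simp
    have a4 : ∀ s ∈ M, s ∈ gstep M t := by
      intro s hs; unfold gstep; split_ifs <;> simp [hs]
    have a5 : ∃ s ∈ gstep M t, ¬ Disj t s := by
      unfold gstep
      split_ifs with h
      · exact ⟨t, by simp, fun h => h.1 rfl⟩
      · simp only [List.all_eq_true, not_forall] at h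
        obtain ⟨s, hs, h⟩ := h
        exact ⟨s, hs, fun h' => h (disjB_iff.2 h')⟩
    obtain ⟨b1, b2, b3, b4, b5⟩ :=
      greedy_spec T L (gstep M t) (fun s hs => h1 s (by simp [hs])) a1 a2
    rw [e]
    refine ⟨b1, b2, a3.trans b3, fun s hs => b4 s (a4 s hs), ?_⟩
    intro s hs
    rcases List.mem_cons.1 hs with h | h
    · obtain ⟨s', hs', h'⟩ := a5
      exact ⟨s', b4 s' hs', h ▸ h'⟩
    · exact b5 s h

theorem countP_or_le {α : Type} (p q : α → Bool) (l : List α) :
    l.countP (fun a => p a || q a) ≤ l.countP p + l.countP q := by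
  induction l with
  | nil => simp
  | cons a l ih =>
    simp only [List.countP_cons]
    cases p a <;> cases q a <;> simp <;> omega

theorem cover_bound {B : ℕ} {T : List Tr} (hB : Bd B T) (G : List Tr) :
    T.countP (fun t => G.any (fun s => !disjB t s)) ≤ 3 * B * G.length := by
  induction G with
  | nil => simp
  | cons s G ih =>
    simp only [List.any_cons, List.length_cons]
    refine (countP_or_le _ _ T).trans ?_
    have h0 := hB 0 s.1
    have h1 := hB 1 s.2.1
    have h2 := hB 2 s.2.2
    have e : T.countP (fun t => !disjB t s) ≤ T.countP (fun t => decide (co 0 t = s.1) ||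
        (decide (co 1 t = s.2.1) || decide (co 2 t = s.2.2))) := by
      apply List.countP_mono_left
      intro t _ ht
      simp only [disjB, co] at ht ⊢
      simp only [Bool.not_and, Bool.not_not, Bool.or_eq_true, decide_eq_true_eq] at ht
      simp only [if_true, one_ne_zero, if_false, OfNat.ofNat_ne_zero, OfNat.ofNat_ne_one,
        Bool.or_eq_true, decide_eq_true_eq]
      tauto
    have e1 := countP_or_le (fun t => decide (co 0 t = s.1))
      (fun t => decide (co 1 t = s.2.1) || decide (co 2 t = s.2.2)) T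
    have e2 := countP_or_le (fun t => decide (co 1 t = s.2.1)) (fun t => decide (co 2 t = s.2.2)) T
    nlinarith

theorem length_le_of_cover {B : ℕ} {T : List Tr} (hB : Bd B T) {G : List Tr}
    (h : ∀ t ∈ T, ∃ s ∈ G, ¬ Disj t s) : T.length ≤ 3 * B * G.length := by
  refine le_trans (le_of_eq ?_) (cover_bound hB G)
  symm
  rw [List.countP_eq_length]
  intro t ht
  obtain ⟨s, hs, h⟩ := h t ht
  rw [List.any_eq_true]
  refine ⟨s, hs, ?_⟩
  cases e : disjB t s
  · rfl
  · exact absurd (disjB_iff.1 e) h

section Main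

variable {P : Type} [DecidableEq P]

def slot (T : List Tr) (c i : ℕ) : ℕ × ℕ := (first T c i, 3 + i)

def on (T : List Tr) (pt : ℕ × ℕ → P) (π : List (P × P × P)) (c : ℕ) : Bool :=
  same π (pt (c, 0)) (pt (slot T c 0)) && same π (pt (c, 0)) (pt (slot T c 1)) &&
    same π (pt (c, 1)) (pt (slot T c 2)) && same π (pt (c, 1)) (pt (c, 2))

def M0 (T : List Tr) (pt : ℕ × ℕ → P) (π : List (P × P × P)) : List Tr :=
  ((List.range T.length).filter (on T pt π)).map (fun c => T.getD c (0, 0, 0))

def dec (T : List Tr) (pt : ℕ × ℕ → P) (π : List (P × P × P)) : List Tr := greedy T (M0 T pt π)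

def Ed (T : List Tr) (pt : ℕ × ℕ → P) : List (P × P) :=
  (List.range T.length).flatMap (fun c => [(pt (c, 1), pt (c, 0)), (pt (c, 2), pt (c, 0)),
    (pt (c, 2), pt (c, 1)), (pt (c, 0), pt (slot T c 0)), (pt (c, 0), pt (slot T c 1)),
    (pt (c, 1), pt (slot T c 2))])

theorem slot_mem {T : List Tr} {c i : ℕ} (hc : c < T.length) (hi : i < 3) : slot T c i ∈ Vs T :=
  mem_Vs.2 ⟨(first_spec hc i).1, by simp only [slot]; omega⟩

theorem own_mem {T : List Tr} {c j : ℕ} (hc : c < T.length) (hj : j < 6) : (c, j) ∈ Vs T :=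
  mem_Vs.2 ⟨hc, hj⟩

omit [DecidableEq P] in
theorem adj_Ed {T : List Tr} {pt : ℕ × ℕ → P} {a b : ℕ × ℕ} (h : Adj T a b) :
    ∃ e ∈ Ed T pt, s(pt a, pt b) = s(e.1, e.2) := by
  obtain ⟨c, hc, i, hi, s, h⟩ := h
  have : (pt (esrc c i s), pt (edst T c i s)) ∈ Ed T pt := by
    unfold Ed
    rw [List.mem_flatMap]
    refine ⟨c, by simpa using hc, ?_⟩
    have : i = 0 ∨ i = 1 ∨ i = 2 := by omega
    rcases this with rfl | rfl | rfl <;> cases s <;> simp [esrc, edst, ss, dd, slot]
  refine ⟨_, this, ?_⟩
  rcases h with ⟨rfl, rfl⟩ | ⟨rfl, rfl⟩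
  · rfl
  · exact Sym2.eq_swap

theorem Ed_bound {T : List Tr} {pt : ℕ × ℕ → P}
    (hinj : ∀ a ∈ Vs T, ∀ b ∈ Vs T, pt a = pt b → a = b) {π : List (P × P × P)}
    (h : (flat π).Nodup) :
    (Ed T pt).countP (fun e => same π e.1 e.2) ≤ 3 * T.length + (M0 T pt π).length := by
  unfold Ed M0
  rw [List.length_map, ← List.countP_eq_length_filter]
  have key : ∀ L : List ℕ, (∀ c ∈ L, c < T.length) →
      (L.flatMap (fun c => [(pt (c, 1), pt (c, 0)), (pt (c, 2), pt (c, 0)),
      (pt (c, 2), pt (c, 1)), (pt (c, 0), pt (slot T c 0)), (pt (c, 0), pt (slot T c 1)),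
      (pt (c, 1), pt (slot T c 2))])).countP (fun e => same π e.1 e.2) ≤
        3 * L.length + L.countP (on T pt π) := by
    intro L
    induction L with
    | nil => simp
    | cons c L ih =>
      intro hL
      have hc : c < T.length := hL c (by simp)
      have h1 := ih (fun c' hc' => hL c' (by simp [hc']))
      have hn : [pt (c, 0), pt (c, 1), pt (c, 2), pt (slot T c 0), pt (slot T c 1),
          pt (slot T c 2)].Nodup := by
        have h0 : [(c, 0), (c, 1), (c, 2), slot T c 0, slot T c 1, slot T c 2].Nodup := by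
          simp [slot]
        have h2 := h0.map_on (f := pt) (by
          intro a ha b hb
          apply hinj
          · simp only [List.mem_cons, List.not_mem_nil, or_false] at ha
            rcases ha with rfl | rfl | rfl | rfl | rfl | rfl <;>
              first | exact own_mem hc (by omega) | exact slot_mem hc (by omega)
          · simp only [List.mem_cons, List.not_mem_nil, or_false] at hb
            rcases hb with rfl | rfl | rfl | rfl | rfl | rfl <;>
              first | exact own_mem hc (by omega) | exact slot_mem hc (by omega))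
        simpa using h2
      have h2 := local_bound h hn
      rw [List.flatMap_cons, List.countP_append, List.countP_cons (a := c), List.length_cons]
      unfold on
      unfold on at h1
      omega
  have := key (List.range T.length) (by simp)
  simpa using this

theorem getD_mem {T : List Tr} {c : ℕ} (hc : c < T.length) : T.getD c (0, 0, 0) ∈ T := by
  simp [List.getD_eq_getElem?_getD, hc]

theorem M0_sol {T : List Tr} {pt : ℕ × ℕ → P}
    (hinj : ∀ a ∈ Vs T, ∀ b ∈ Vs T, pt a = pt b → a = b) {π : List (P × P × P)}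
    (h : (flat π).Nodup) : (∀ t ∈ M0 T pt π, t ∈ T) ∧ (M0 T pt π).Pairwise Disj := by
  unfold M0
  constructor
  · intro t ht
    obtain ⟨c, hc, rfl⟩ := List.mem_map.1 ht
    exact getD_mem (by simpa using (List.mem_filter.1 hc).1)
  · rw [List.pairwise_map]
    refine (List.nodup_range.filter _).pairwise_of_forall_ne ?_
    intro c hc c' hc' hne
    obtain ⟨hc, ho⟩ := List.mem_filter.1 hc
    obtain ⟨hc', ho'⟩ := List.mem_filter.1 hc'
    rw [List.mem_range] at hc hc'
    simp only [on, Bool.and_eq_true] at ho ho'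
    have ne : ∀ a ∈ Vs T, ∀ b ∈ Vs T, a ≠ b → pt a ≠ pt b :=
      fun a ha b hb hab e => hab (hinj a ha b hb e)
    rw [disj_iff_co]
    intro i hi hk
    have hs : slot T c i = slot T c' i := by
      unfold slot
      rw [(first_eq_iff hc hc' i).2 hk]
    have : i = 0 ∨ i = 1 ∨ i = 2 := by omega
    rcases this with rfl | rfl | rfl
    · have e1 := same_symm ho.1.1.1
      have e2 := same_symm ho'.1.1.1
      rw [← hs] at e2
      refine same_four h ho.1.1.1 ho.1.1.2 (same_trans h e1 e2) ?_ ?_ ?_ ?_ ?_ ?_ <;>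
        apply ne <;>
        first | exact own_mem hc (by omega) | exact slot_mem hc (by omega) | exact own_mem hc' (by omega) | simp [slot, hne]
    · have e1 := same_symm ho.1.1.2
      have e2 := same_symm ho'.1.1.2
      rw [← hs] at e2
      refine same_four h ho.1.1.1 ho.1.1.2 (same_trans h e1 e2) ?_ ?_ ?_ ?_ ?_ ?_ <;>
        apply ne <;>
        first | exact own_mem hc (by omega) | exact slot_mem hc (by omega) | exact own_mem hc' (by omega) | simp [slot, hne]
    · have e1 := same_symm ho.1.2
      have e2 := same_symm ho'.1.2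
      rw [← hs] at e2
      refine same_four h ho.1.2 ho.2 (same_trans h e1 e2) ?_ ?_ ?_ ?_ ?_ ?_ <;>
        apply ne <;>
        first | exact own_mem hc (by omega) | exact slot_mem hc (by omega) | exact own_mem hc' (by omega) | simp [slot, hne]

theorem sum_le_count {α : Type} (f : α → ℝ) (q : α → Bool) (D Δ : ℝ) (l : List α)
    (h : ∀ x ∈ l, f x ≤ D + if q x = true then Δ else 0) :
    (l.map f).sum ≤ l.length * D + l.countP q * Δ := by
  induction l with
  | nil => simp
  | cons a l ih =>
    have h1 := ih (fun x hx => h x (by simp [hx]))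
    have h2 := h a (by simp)
    simp only [List.map_cons, List.sum_cons, List.length_cons, List.countP_cons]
    split_ifs at h2 ⊢ <;> push_cast <;> linarith

open Classical in
theorem upper {T : List Tr} {pt : ℕ × ℕ → P} {d : P → P → ℝ} {D Δ : ℝ} (hΔ : 0 ≤ Δ)
    (hinj : ∀ a ∈ Vs T, ∀ b ∈ Vs T, pt a = pt b → a = b)
    (hd : ∀ a ∈ Vs T, ∀ b ∈ Vs T, a ≠ b → d (pt a) (pt b) = if Adj T a b then D + Δ else D)
    {π : List (P × P × P)} (hπ : (flat π).Perm ((Vs T).map pt)) :
    ((prs π).map (fun x => d x.1 x.2)).sum ≤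
      6 * T.length * D + (3 * T.length + (M0 T pt π).length) * Δ := by
  have hn : (flat π).Nodup := hπ.nodup_iff.2 ((nodup_Vs T).map_on hinj)
  have h1 := sum_le_count (fun x : P × P => d x.1 x.2)
    (fun x => decide (∃ e ∈ Ed T pt, s(x.1, x.2) = s(e.1, e.2))) D Δ (prs π) (by
      intro x hx
      obtain ⟨m1, m2, _⟩ := mem_prs hx
      obtain ⟨a, ha, ea⟩ := List.mem_map.1 (hπ.subset m1)
      obtain ⟨b, hb, eb⟩ := List.mem_map.1 (hπ.subset m2)
      have hab : a ≠ b := fun e => prs_ne hn hx (by rw [← ea, ← eb, e])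
      have := hd a ha b hb hab
      rw [ea, eb] at this
      simp only [this, decide_eq_true_eq]
      by_cases hA : Adj T a b
      · have := adj_Ed (pt := pt) hA
        rw [ea, eb] at this
        rw [if_pos hA, if_pos this]
      · rw [if_neg hA]
        split_ifs <;> linarith)
  have h2 := (count_le hn (Ed T pt)).trans (Ed_bound hinj hn)
  have h3 : (prs π).length = 6 * T.length := by
    rw [length_prs, ← length_flat, hπ.length_eq, List.length_map, length_Vs]
  rw [h3] at h1
  have h4 : (((prs π).countP (fun x => decide (∃ e ∈ Ed T pt, s(x.1, x.2) = s(e.1, e.2))) : ℕ) : ℝ)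
      ≤ 3 * T.length + (M0 T pt π).length := by
    have : (prs π).countP (fun x => decide (∃ e ∈ Ed T pt, s(x.1, x.2) = s(e.1, e.2))) ≤
      3 * T.length + (M0 T pt π).length := by convert h2
    exact_mod_cast this
  have h5 := mul_le_mul_of_nonneg_right h4 hΔ
  push_cast at h1
  linarith

end Main

end Pool.Agent.H371Z.Tri
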